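import Pool.Agent.SYC.CpD

/-!
# SYC/CpE: the derivative of a capacity preserving homeomorphism is symplectic or antisymplectic

`CapHomeo.symm`: for `z ∈ e.target`, `x = e.symm z`, `W` for `x`: `W' = e '' W` (open); for `O ⊆ W'` open: `e '' (e.symm '' O) = O`.
`cap_symp`: `ns_of`, `rigid`: `G J Gᵀ = μ J`, `μ ≠ 0`; `mu_ge`: `|μ| ≥ 1`.  `G` is invertible, so `e.symm` is differentiable at `e x` with derivative `G⁻¹` (`OpenPartialHomeomorph.hasFDerivAt_symm`), and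
`G⁻¹ J G⁻¹ᵀ = μ⁻¹ J`; `mu_ge` for `e.symm`: `|μ⁻¹| ≥ 1`.  So `μ = ± 1`, and `G J Gᵀ = μ J` gives `Gᵀ J G = μ J` (`J² = -1`).
-/

open MeasureTheory Set Filter Topology
open scoped ContDiff Matrix ENNReal

namespace Pool.Agent.SYC

open Pool.Agent.SYH Pool.Agent.SYD

variable {c : Set R4 → ℝ≥0∞} {e : OpenPartialHomeomorph R4 R4} {x : R4}
  {G : Matrix (Fin 4) (Fin 4) ℝ}

theorem CapHomeo.symm (he : CapHomeo c e) : CapHomeo c e.symm := by
  intro z hz
  have hz' : z ∈ e.target := hz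
  obtain ⟨W, hW, hxW, hWs, h⟩ := he (e.symm z) (e.map_target hz')
  refine ⟨e '' W, e.isOpen_image_of_subset_source hW hWs, ⟨e.symm z, hxW, e.right_inv hz'⟩, ?_, ?_⟩
  · rintro _ ⟨y, hy, rfl⟩
    exact e.map_source (hWs hy)
  · intro O hO hOo
    have hOt : O ⊆ e.target := by
      intro y hy
      obtain ⟨w, hw, rfl⟩ := hO hy
      exact e.map_source (hWs hw)
    have h1 : e.symm '' O ⊆ W := by
      rintro _ ⟨y, hy, rfl⟩
      obtain ⟨w, hw, rfl⟩ := hO hy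
      rw [e.left_inv (hWs hw)]
      exact hw
    have h2 : IsOpen (e.symm '' O) := e.symm.isOpen_image_of_subset_source hOo hOt
    have h3 : e '' (e.symm '' O) = O := by
      ext y
      constructor
      · rintro ⟨_, ⟨w, hw, rfl⟩, rfl⟩
        rw [e.right_inv (hOt hw)]
        exact hw
      · intro hy
        exact ⟨e.symm y, ⟨y, hy, rfl⟩, e.right_inv (hOt hy)⟩
    rw [← h _ h1 h2, h3]

private theorem J_sq' : J * J = -1 := by
  ext a b
  fin_cases a <;> fin_cases b <;> simp [J, Matrix.mul_apply, Fin.sum_univ_four]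

private theorem inv_of {G : Matrix (Fin 4) (Fin 4) ℝ} {μ : ℝ} (hμ : μ ≠ 0)
    (h : G * J * Gᵀ = μ • J) : G * (-(μ⁻¹ • (J * Gᵀ * J))) = 1 := by
  calc G * (-(μ⁻¹ • (J * Gᵀ * J))) = -(μ⁻¹ • ((G * J * Gᵀ) * J)) := by
        rw [mul_neg, Matrix.mul_smul]
        congr 2
        noncomm_ring
    _ = 1 := by
        rw [h, Matrix.smul_mul, J_sq', smul_smul, inv_mul_cancel₀ hμ, one_smul, neg_neg]

theorem cap_symp (hc : IsCap c) (he : CapHomeo c e) (hx : x ∈ e.source)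
    (hG : HasFDerivAt e (mL G) x) : Gᵀ * J * G = J ∨ Gᵀ * J * G = -J := by
  obtain ⟨δ, hδ, hns⟩ := ns_of hc
  obtain ⟨μ, hμ, h⟩ := rigid hδ (hns e x G he hx hG)
  have hμ0 : μ ≠ 0 := by
    intro h0
    rw [h0, abs_zero] at hμ
    linarith
  have h1 : 1 ≤ |μ| := mu_ge hc he hx hG hμ0 h
  set R : Matrix (Fin 4) (Fin 4) ℝ := -(μ⁻¹ • (J * Gᵀ * J)) with hR
  have hGR : G * R = 1 := inv_of hμ0 h
  have hRG : R * G = 1 := mul_eq_one_comm.mp hGR
  -- derivative of the inverse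
  have hsymm : HasFDerivAt e.symm (mL R) (e x) := by
    let L : R4 ≃L[ℝ] R4 := ContinuousLinearEquiv.equivOfInverse (mL G) (mL R)
      (fun v => by
        show Matrix.toLin' R (Matrix.toLin' G v) = v
        rw [← Matrix.toLin'_mul_apply, hRG, Matrix.toLin'_one, LinearMap.id_apply])
      (fun v => by
        show Matrix.toLin' G (Matrix.toLin' R v) = v
        rw [← Matrix.toLin'_mul_apply, hGR, Matrix.toLin'_one, LinearMap.id_apply])
    have h2 : HasFDerivAt e (L : R4 →L[ℝ] R4) (e.symm (e x)) := by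
      rw [e.left_inv hx]
      exact hG
    exact e.hasFDerivAt_symm (e.map_source hx) h2
  have hRt : Gᵀ * Rᵀ = 1 := by
    rw [← Matrix.transpose_mul, hRG, Matrix.transpose_one]
  have h3 : R * J * Rᵀ = μ⁻¹ • J := by
    have e1 : R * (G * J * Gᵀ) * Rᵀ = J := by
      calc R * (G * J * Gᵀ) * Rᵀ = (R * G) * J * (Gᵀ * Rᵀ) := by noncomm_ring
        _ = J := by rw [hRG, hRt, one_mul, mul_one]
    rw [h, Matrix.mul_smul, Matrix.smul_mul] at e1
    have e2 : μ⁻¹ • (μ • (R * J * Rᵀ)) = μ⁻¹ • J := by rw [e1]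
    rwa [smul_smul, inv_mul_cancel₀ hμ0, one_smul] at e2
  have h4 : 1 ≤ |μ⁻¹| :=
    mu_ge hc he.symm (x := e x) (e.map_source hx) hsymm (inv_ne_zero hμ0) h3
  have h5 : |μ| = 1 := by
    rw [abs_inv] at h4
    have h6 : |μ| ≤ 1 := by
      have := inv_le_one_of_one_le₀ h4
      rwa [inv_inv] at this
    linarith
  -- Gᵀ J G = μ J
  have h6 : J * Gᵀ * J * G = -(μ • (1 : Matrix (Fin 4) (Fin 4) ℝ)) := by
    have e2 : -(μ⁻¹ • (J * Gᵀ * J)) * G = 1 := hRG
    rw [neg_mul, Matrix.smul_mul] at e2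
    have e3 : μ⁻¹ • (J * Gᵀ * J * G) = -1 := by rw [← e2, neg_neg]
    have e4 : μ • (μ⁻¹ • (J * Gᵀ * J * G)) = μ • (-1 : Matrix (Fin 4) (Fin 4) ℝ) := by rw [e3]
    rwa [smul_smul, mul_inv_cancel₀ hμ0, one_smul, smul_neg] at e4
  have h7 : Gᵀ * J * G = μ • J := by
    have e5 : -(J * (J * Gᵀ * J * G)) = Gᵀ * J * G := by
      calc -(J * (J * Gᵀ * J * G)) = -((J * J) * Gᵀ * J * G) := by noncomm_ring
        _ = Gᵀ * J * G := by rw [J_sq']; simp
    rw [← e5, h6, mul_neg, neg_neg, Matrix.mul_smul, mul_one]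
  rcases eq_or_eq_neg_of_abs_eq h5 with h8 | h8
  · left; rw [h7, h8, one_smul]
  · right; rw [h7, h8, neg_smul, one_smul]

end Pool.Agent.SYC
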