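import Pool.Agent.SYC.DfF
import Pool.Agent.SYC.CpE
import Pool.Agent.SYD.Mn2

/-!
# SYC/MnC: no atlas with capacity preserving transition maps of class `W^{1,p}`, `p > 3`
-/

open MeasureTheory Set Filter Topology
open scoped ContDiff Matrix ENNReal

namespace Pool.Agent.SYC

open Pool.Agent.SYH Pool.Agent.SYD

theorem cap_sob {c : Set R4 → ℝ≥0∞} (hc : IsCap c) {p : ℝ} (hp : 3 < p)
    {e : OpenPartialHomeomorph R4 R4} (he : CapHomeo c e) {G : R4 → Matrix (Fin 4) (Fin 4) ℝ}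
    (hG : IsWD (ENNReal.ofReal p) e.source e G) : SobSympPM 2 e := by
  have h2 : (2 : ℝ≥0∞) ≤ ENNReal.ofReal p := by
    rw [show (2 : ℝ≥0∞) = ENNReal.ofReal 2 by simp]
    exact ENNReal.ofReal_le_ofReal (by linarith)
  refine ⟨G, ⟨fun b a => (hG.lp b a).exp h2, hG.wg⟩, ?_⟩
  filter_upwards [diff_hom hp hG] with x hx hxs
  exact cap_symp hc he hxs (hx hxs)

theorem no_atlas_cap {c : Set R4 → ℝ≥0∞} (hc : IsCap c) {p : ℝ} (hp : 3 < p) {ι : Type*}
    (x : ι → OpenPartialHomeomorph S4 R4) (hx : ∀ m, ∃ i, m ∈ (x i).source)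
    (h1 : ∀ i j, CapHomeo c ((x i).symm.trans (x j)))
    (h2 : ∀ i j, ∃ G, IsWD (ENNReal.ofReal p) ((x i).symm.trans (x j)).source
      ((x i).symm.trans (x j)) G) : False :=
  no_atlas_pm2 x hx fun i j => by
    obtain ⟨G, hG⟩ := h2 i j
    exact cap_sob hc hp (h1 i j) hG

end Pool.Agent.SYC
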