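import Pool.Agent.SYC.Defs

/-!
# SYC/CpA: consequences of the axioms of a capacity

`sp_inv`: `Sᵀ J S = J`, so `det S ^ 2 = 1` (`det_J_pm`), `S` is invertible and `S⁻¹ = - J Sᵀ J`; also `S J Sᵀ = J` (`SYH/Par` has `S J Sᵀ = J` inside `pair_symp`).
`c_lin`: `f x = S *ᵥ x` and its inverse are symplectic embeddings (`jac f x = S`); `mono` in both directions.  `c_trans` in the same way (`jac = 1`).
`c_anti`: `σ = diag (1, -1, 1, -1)`, `σᵀ J σ = -J`, `σ '' Bl r = Bl r`; `G = t S σ` with `S` symplectic: `mL G '' Bl r = t S '' Bl r`.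
`c_ball`, `c_cyl`: `conf` and `(fun x => r • x) '' Bl 1 = Bl r`.
-/

open MeasureTheory Set Filter Topology
open scoped ContDiff Matrix ENNReal

namespace Pool.Agent.SYC

open Pool.Agent.SYH Pool.Agent.SYD

variable {c : Set R4 → ℝ≥0∞} {U V : Set R4} {S T : Matrix (Fin 4) (Fin 4) ℝ}

private theorem J_sq' : J * J = -1 := by
  ext a b
  fin_cases a <;> fin_cases b <;> simp [J, Matrix.mul_apply, Fin.sum_univ_four]

private theorem J_tr : Jᵀ = -J := by
  ext a b
  fin_cases a <;> fin_cases b <;> simp [J]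

private theorem Sp.left_inv (h : Sp S) : (-(J * Sᵀ * J)) * S = 1 := by
  have h' : Sᵀ * J * S = J := h
  calc (-(J * Sᵀ * J)) * S = -(J * (Sᵀ * J * S)) := by noncomm_ring
    _ = 1 := by rw [h', J_sq']; simp

theorem Sp.right (h : Sp S) : S * J * Sᵀ = J := by
  have h2 : S * (-(J * Sᵀ * J)) = 1 := mul_eq_one_comm.mp h.left_inv
  rw [mul_neg] at h2
  have h2' : S * (J * Sᵀ * J) = -1 := by rw [← h2]; simp
  have h4 : S * J * Sᵀ * (J * J) = -J := by
    calc S * J * Sᵀ * (J * J) = (S * (J * Sᵀ * J)) * J := by noncomm_ring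
      _ = -J := by rw [h2']; simp
  rw [J_sq'] at h4
  simpa using h4

theorem Sp.inv (h : Sp S) : ∃ R, Sp R ∧ R * S = 1 ∧ S * R = 1 := by
  refine ⟨-(J * Sᵀ * J), ?_, h.left_inv, mul_eq_one_comm.mp h.left_inv⟩
  unfold Sp
  have e : (-(J * Sᵀ * J))ᵀ = -(J * S * J) := by
    rw [Matrix.transpose_neg, Matrix.transpose_mul, Matrix.transpose_mul, Matrix.transpose_transpose,
      J_tr]
    noncomm_ring
  rw [e]
  calc -(J * S * J) * J * -(J * Sᵀ * J) = J * S * (J * J) * (J * Sᵀ * J) := by noncomm_ring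
    _ = -(J * (S * J * Sᵀ) * J) := by rw [J_sq']; noncomm_ring
    _ = -(J * J * J) := by rw [h.right]
    _ = J := by rw [J_sq']; simp

theorem Sp.mul (h : Sp S) (h' : Sp T) : Sp (S * T) := by
  have h1 : Sᵀ * J * S = J := h
  have h2 : Tᵀ * J * T = J := h'
  unfold Sp
  rw [Matrix.transpose_mul]
  calc Tᵀ * Sᵀ * J * (S * T) = Tᵀ * (Sᵀ * J * S) * T := by noncomm_ring
    _ = J := by rw [h1, h2]

theorem bl_open (r : ℝ) : IsOpen (Bl r) :=
  isOpen_lt (continuous_finsetSum _ fun a _ => (continuous_apply a).pow 2) continuous_const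

theorem cy_open (r : ℝ) : IsOpen (Cy r) :=
  isOpen_lt (((continuous_apply 0).pow 2).add ((continuous_apply 1).pow 2)) continuous_const

private theorem jac_of {f : R4 → R4} {x : R4} {A : R4 →L[ℝ] R4} (h : HasFDerivAt f A x) :
    jac f x = Matrix.of fun b a => A (Pi.single a 1) b := by
  unfold jac
  rw [h.fderiv]

private theorem jac_id' (x : R4) : jac (fun y => y) x = 1 := by
  have h : HasFDerivAt (fun y : R4 => y) (ContinuousLinearMap.id ℝ R4) x := hasFDerivAt_id x
  rw [jac_of h]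
  ext b a
  simp [Matrix.one_apply, Pi.single_apply]

private theorem jac_tr (v x : R4) : jac (fun y => y + v) x = 1 := by
  have h : HasFDerivAt (fun y : R4 => y + v) (ContinuousLinearMap.id ℝ R4) x :=
    (hasFDerivAt_id x).add_const v
  rw [jac_of h]
  ext b a
  simp [Matrix.one_apply, Pi.single_apply]

private theorem mL_apply (G : Matrix (Fin 4) (Fin 4) ℝ) (x : R4) : mL G x = G *ᵥ x := rfl

private theorem jac_mL (G : Matrix (Fin 4) (Fin 4) ℝ) (x : R4) : jac (mL G) x = G := by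
  rw [jac_of (mL G).hasFDerivAt]
  ext b a
  simp [mL_apply, Matrix.mulVec_single]

theorem c_mono (hc : IsCap c) (hU : IsOpen U) (hV : IsOpen V) (h : U ⊆ V) : c U ≤ c V := by
  refine hc.mono U V (fun y => y) hU hV ⟨contDiff_id.contDiffOn, injOn_id _, fun x _ => ?_, h⟩
  rw [jac_id']
  simp

private theorem c_tr_le (hc : IsCap c) (hU : IsOpen U) (v : R4) :
    c U ≤ c ((fun x => x + v) '' U) := by
  refine hc.mono U _ (fun y => y + v) hU ?_ ⟨(contDiff_id.add contDiff_const).contDiffOn,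
    (add_left_injective v).injOn, fun x _ => ?_, mapsTo_image _ _⟩
  · exact (Homeomorph.addRight v).isOpenMap U hU
  · rw [jac_tr]
    simp

theorem c_trans (hc : IsCap c) (hU : IsOpen U) (v : R4) : c ((fun x => x + v) '' U) = c U := by
  apply le_antisymm _ (c_tr_le hc hU v)
  have h := c_tr_le hc ((Homeomorph.addRight v).isOpenMap U hU) (-v)
  have e : (fun x => x + -v) '' (⇑(Homeomorph.addRight v) '' U) = U := by
    rw [image_image]
    simp
  rw [e] at h
  exact h

private theorem mL_image {R S : Matrix (Fin 4) (Fin 4) ℝ} (h1 : R * S = 1) (h2 : S * R = 1)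
    (U : Set R4) : mL S '' U = mL R ⁻¹' U := by
  ext y
  constructor
  · rintro ⟨x, hx, rfl⟩
    simp only [mem_preimage, mL_apply, Matrix.mulVec_mulVec, h1, Matrix.one_mulVec]
    exact hx
  · intro hy
    refine ⟨mL R y, hy, ?_⟩
    simp only [mL_apply, Matrix.mulVec_mulVec, h2, Matrix.one_mulVec]

private theorem mL_open (hU : IsOpen U) (hS : Sp S) : IsOpen (mL S '' U) := by
  obtain ⟨R, -, h1, h2⟩ := hS.inv
  rw [mL_image h1 h2]
  exact hU.preimage (mL R).continuous

private theorem c_lin_le (hc : IsCap c) (hU : IsOpen U) (hS : Sp S) : c U ≤ c (mL S '' U) := by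
  obtain ⟨R, -, h1, h2⟩ := hS.inv
  refine hc.mono U _ (mL S) hU (mL_open hU hS) ⟨(mL S).contDiff.contDiffOn, ?_, fun x _ => ?_,
    mapsTo_image _ _⟩
  · intro x _ y _ hxy
    have := congrArg (mL R) hxy
    simpa only [mL_apply, Matrix.mulVec_mulVec, h1, Matrix.one_mulVec] using this
  · rw [jac_mL]
    exact hS

private theorem mL_mL (R S : Matrix (Fin 4) (Fin 4) ℝ) (U : Set R4) :
    mL R '' (mL S '' U) = mL (R * S) '' U := by
  rw [image_image]
  congr 1
  ext x
  simp [mL_apply, Matrix.mulVec_mulVec]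

theorem c_lin (hc : IsCap c) (hU : IsOpen U) (hS : Sp S) : c (mL S '' U) = c U := by
  apply le_antisymm _ (c_lin_le hc hU hS)
  obtain ⟨R, hR, h1, h2⟩ := hS.inv
  have h := c_lin_le hc (mL_open hU hS) hR
  rw [mL_mL, h1] at h
  have e : mL 1 '' U = U := by
    have : (mL 1 : R4 → R4) = id := by
      ext x
      simp [mL_apply]
    rw [this, image_id]
  rw [e] at h
  exact h

private theorem smul_image_eq {r : ℝ} (hr : 0 < r) {P Q : Set R4}
    (h : ∀ x : R4, r⁻¹ • x ∈ P ↔ x ∈ Q) : (fun x : R4 => r • x) '' P = Q := by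
  ext y
  constructor
  · rintro ⟨x, hx, rfl⟩
    rw [← h]
    simpa only [smul_smul, inv_mul_cancel₀ hr.ne', one_smul] using hx
  · intro hy
    refine ⟨r⁻¹ • y, (h y).2 hy, ?_⟩
    simp only [smul_smul, mul_inv_cancel₀ hr.ne', one_smul]

private theorem smul_bl {r : ℝ} (hr : 0 < r) : (fun x : R4 => r • x) '' Bl 1 = Bl r := by
  apply smul_image_eq hr
  intro x
  simp only [Bl, mem_ofPred_eq, Pi.smul_apply, smul_eq_mul, mul_pow, ← Finset.mul_sum]
  rw [inv_pow, inv_mul_lt_iff₀ (by positivity)]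
  simp

private theorem smul_cy {r : ℝ} (hr : 0 < r) : (fun x : R4 => r • x) '' Cy 1 = Cy r := by
  apply smul_image_eq hr
  intro x
  simp only [Cy, mem_ofPred_eq, Pi.smul_apply, smul_eq_mul, mul_pow, ← mul_add]
  rw [inv_pow, inv_mul_lt_iff₀ (by positivity)]
  simp

theorem c_ball (hc : IsCap c) {r : ℝ} (hr : 0 < r) : c (Bl r) = ENNReal.ofReal (r ^ 2) * c (Bl 1) := by
  rw [← smul_bl hr]
  exact hc.conf _ r (bl_open 1) hr

theorem c_cyl (hc : IsCap c) {r : ℝ} (hr : 0 < r) : c (Cy r) = ENNReal.ofReal (r ^ 2) * c (Cy 1) := by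
  rw [← smul_cy hr]
  exact hc.conf _ r (cy_open 1) hr

theorem c_ball_ne (hc : IsCap c) : c (Bl 1) ≠ ⊤ := by
  refine ne_top_of_le_ne_top hc.fin (c_mono hc (bl_open 1) (cy_open 1) ?_)
  intro x hx
  simp only [Bl, Cy, mem_ofPred_eq, Fin.sum_univ_four] at hx ⊢
  have := sq_nonneg (x 2)
  have := sq_nonneg (x 3)
  linarith

private theorem c_conf_pos (hc : IsCap c) {G : Matrix (Fin 4) (Fin 4) ℝ} {μ : ℝ} (hμ : 0 < μ)
    (hG : G * J * Gᵀ = μ • J) {r : ℝ} (hr : 0 < r) :
    c (mL G '' Bl r) = ENNReal.ofReal (μ * r ^ 2) * c (Bl 1) := by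
  set t := Real.sqrt μ with ht
  have ht0 : 0 < t := Real.sqrt_pos.2 hμ
  have ht2 : t ^ 2 = μ := Real.sq_sqrt hμ.le
  set S := t⁻¹ • G with hS
  have hG' : G = t • S := by rw [hS, smul_smul, mul_inv_cancel₀ ht0.ne', one_smul]
  have h1 : S * J * Sᵀ = J := by
    rw [hS, Matrix.transpose_smul, Matrix.smul_mul, Matrix.smul_mul, Matrix.mul_smul, hG, smul_smul,
      smul_smul, ← ht2]
    have : t⁻¹ * t⁻¹ * t ^ 2 = 1 := by field_simp
    rw [this, one_smul]
  have h2 : Sp Sᵀ := by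
    unfold Sp
    rw [Matrix.transpose_transpose]
    exact h1
  have h3 : Sp S := by
    have := h2.right
    rwa [Matrix.transpose_transpose] at this
  have e : mL G '' Bl r = (fun x : R4 => t • x) '' (mL S '' Bl r) := by
    rw [image_image]
    congr 1
    ext x
    rw [mL_apply, mL_apply, hG', Matrix.smul_mulVec]
  rw [e, hc.conf _ t (mL_open (bl_open r) h3) ht0, c_lin hc (bl_open r) h3, c_ball hc hr, ht2,
    ← mul_assoc, ← ENNReal.ofReal_mul hμ.le]

private def sg : Matrix (Fin 4) (Fin 4) ℝ := Matrix.diagonal ![1, -1, 1, -1]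

private theorem sg_sq : sg * sg = 1 := by
  unfold sg
  rw [Matrix.diagonal_mul_diagonal, ← Matrix.diagonal_one]
  congr 1
  ext i
  fin_cases i <;> simp

private theorem sg_J : sg * J * sgᵀ = -J := by
  ext a b
  fin_cases a <;> fin_cases b <;> simp [sg, J, Matrix.mul_apply, Fin.sum_univ_four, Matrix.diagonal]

private theorem sg_bl (r : ℝ) : mL sg '' Bl r = Bl r := by
  rw [mL_image sg_sq sg_sq]
  ext x
  simp only [mem_preimage, Bl, mem_ofPred_eq, mL_apply, sg, Matrix.mulVec_diagonal,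
    Fin.sum_univ_four]
  simp

/-- conformally symplectic or antisymplectic linear maps -/
theorem c_conf (hc : IsCap c) {G : Matrix (Fin 4) (Fin 4) ℝ} {μ : ℝ} (hμ : μ ≠ 0)
    (hG : G * J * Gᵀ = μ • J) {r : ℝ} (hr : 0 < r) :
    c (mL G '' Bl r) = ENNReal.ofReal (|μ| * r ^ 2) * c (Bl 1) := by
  rcases lt_or_gt_of_ne hμ with h | h
  · rw [abs_of_neg h]
    have h1 : (G * sg) * J * (G * sg)ᵀ = (-μ) • J := by
      rw [Matrix.transpose_mul]
      calc G * sg * J * (sgᵀ * Gᵀ) = G * (sg * J * sgᵀ) * Gᵀ := by noncomm_ring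
        _ = -(G * J * Gᵀ) := by rw [sg_J]; noncomm_ring
        _ = (-μ) • J := by rw [hG, neg_smul]
    have h2 := c_conf_pos hc (by linarith : 0 < -μ) h1 hr
    rw [← mL_mL, sg_bl] at h2
    exact h2
  · rw [abs_of_pos h]
    exact c_conf_pos hc h hG hr

end Pool.Agent.SYC
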