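import Pool.Agent.SYC.CpA

/-!
# SYC/CpB: symplectic matrices with two given rows

Let `p · J q = 1`.  For `w ∈ ℝ⁴` let `w' = w - (w · J q) p + (w · J p) q`; then `w' · J q = 0`, `w' · J p = 0` (`p · J p = 0`, `q · J p = -1`).  The map `w ↦ w'` has the kernel
`span (p, q)`, so its image has dimension 2, and the form `u · J v` is nondegenerate on the image (if `u'` is orthogonal to all `v'`, then it is orthogonal to everything,
so `u' = 0`): there are `u', v'` with `u' · J v' = 1`.  `T` with the rows `p, q, u', v'` satisfies `T J Tᵀ = J`, so `Tᵀ J T = J`.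
`rows_pair`: `R` symplectic with the rows `r₀, r₁` (`r₀ · J r₁ = 1`), `S = R⁻¹`: `(r₀ S)= e₀`, `(r₁ S) = e₁`.  For `κ = l₀ · J l₁ ≠ 0`: `r₀ = l₀ / √|κ|`, `r₁ = ± l₁ / √|κ|`.
`rows_lag`: `l₀, l₁` linearly independent with `l₀ · J l₁ = 0`, `ε > 0`: there are `u, v` with `l₀ · J u = 1`, `l₁ · J v = 1`, `l₀ · J v = 0`, `l₁ · J u = 0`, `u · J v = 0` (solve; correct `v` by a
multiple of `l₀`); `R` with the rows `l₀/ε, ε u, l₁/ε, ε v` is symplectic, and `S = R⁻¹`: `l₀ S = ε e₀`, `l₁ S = ε e₂`.  If `l₁ = 0`, `l₀ ≠ 0` or so: similar with one row.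
`rows_small` collects the degenerate cases: `l₀ · J l₁ = 0` (independent, or dependent, or zero).
-/

open MeasureTheory Set Filter Topology
open scoped ContDiff Matrix ENNReal

namespace Pool.Agent.SYC

open Pool.Agent.SYH Pool.Agent.SYD

variable {p q l₀ l₁ : R4}

private def om (a b : R4) : ℝ := a 0 * b 1 - a 1 * b 0 + (a 2 * b 3 - a 3 * b 2)

private theorem om_eq (a b : R4) : a ⬝ᵥ (J *ᵥ b) = om a b := by
  unfold om J
  simp [Matrix.mulVec, dotProduct, Fin.sum_univ_four, Matrix.of_apply]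
  ring

private theorem om_anti (a b : R4) : om a b = -om b a := by
  unfold om
  ring

private theorem om_self (a : R4) : om a a = 0 := by
  unfold om
  ring

private theorem om_smul (t s : ℝ) (a b : R4) : om (t • a) (s • b) = t * s * om a b := by
  simp only [om, Pi.smul_apply, smul_eq_mul]
  ring

private theorem sp_of_rows {T : Matrix (Fin 4) (Fin 4) ℝ} (h1 : om (T 0) (T 1) = 1)
    (h2 : om (T 2) (T 3) = 1) (h3 : om (T 0) (T 2) = 0) (h4 : om (T 0) (T 3) = 0)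
    (h5 : om (T 1) (T 2) = 0) (h6 : om (T 1) (T 3) = 0) : Sp T := by
  have h : Sp Tᵀ := by
    unfold Sp
    rw [Matrix.transpose_transpose]
    ext i j
    have key : (T * J * Tᵀ) i j = om (T i) (T j) := by
      unfold om J
      simp [Matrix.mul_apply, Fin.sum_univ_four, Matrix.transpose_apply, Matrix.of_apply]
      ring
    rw [key]
    fin_cases i <;> fin_cases j
    · exact om_self _
    · exact h1
    · exact h3
    · exact h4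
    · exact (om_anti _ _).trans (congrArg Neg.neg h1)
    · exact om_self _
    · exact h5
    · exact h6
    · exact (om_anti _ _).trans (neg_eq_zero.mpr h3)
    · exact (om_anti _ _).trans (neg_eq_zero.mpr h5)
    · exact om_self _
    · exact h2
    · exact (om_anti _ _).trans (neg_eq_zero.mpr h4)
    · exact (om_anti _ _).trans (neg_eq_zero.mpr h6)
    · exact (om_anti _ _).trans (congrArg Neg.neg h2)
    · exact om_self _
  have h' := h.right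
  rw [Matrix.transpose_transpose] at h'
  exact h'

private theorem ex_dual {c : R4} (hc : c ≠ 0) : ∃ n, om c n = 1 := by
  have hs : 0 < c 0 ^ 2 + c 1 ^ 2 + c 2 ^ 2 + c 3 ^ 2 := by
    by_contra hn
    refine hc ?_
    have h0 := sq_nonneg (c 0)
    have h1 := sq_nonneg (c 1)
    have h2 := sq_nonneg (c 2)
    have h3 := sq_nonneg (c 3)
    funext i
    fin_cases i
    · exact pow_eq_zero_iff (two_ne_zero) |>.mp (by nlinarith : c 0 ^ 2 = 0)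
    · exact pow_eq_zero_iff (two_ne_zero) |>.mp (by nlinarith : c 1 ^ 2 = 0)
    · exact pow_eq_zero_iff (two_ne_zero) |>.mp (by nlinarith : c 2 ^ 2 = 0)
    · exact pow_eq_zero_iff (two_ne_zero) |>.mp (by nlinarith : c 3 ^ 2 = 0)
  refine ⟨(c 0 ^ 2 + c 1 ^ 2 + c 2 ^ 2 + c 3 ^ 2)⁻¹ • ![-c 1, c 0, -c 3, c 2], ?_⟩
  simp only [om, Pi.smul_apply, smul_eq_mul, Matrix.cons_val]
  field_simp
  ring

private def pr (p q w : R4) : R4 := w - om w q • p + om w p • q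

private theorem om_pr (x w : R4) :
    om x (pr p q w) = om x w - om w q * om x p + om w p * om x q := by
  simp only [om, pr, Pi.smul_apply, Pi.add_apply, Pi.sub_apply, smul_eq_mul]
  ring

private theorem pr_left (h : om p q = 1) (w : R4) : om p (pr p q w) = 0 := by
  rw [om_pr, om_self, h, om_anti p w]
  ring

private theorem pr_right (h : om p q = 1) (w : R4) : om q (pr p q w) = 0 := by
  rw [om_pr, om_self, om_anti q p, h, om_anti q w]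
  ring

private theorem ex_comp (h : om p q = 1) {c : R4} (h1 : om p c = 0) (h2 : om q c = 0)
    (hc : c ≠ 0) : ∃ d, om p d = 0 ∧ om q d = 0 ∧ om c d = 1 := by
  obtain ⟨n, hn⟩ := ex_dual hc
  refine ⟨pr p q n, pr_left h n, pr_right h n, ?_⟩
  rw [om_pr, hn, om_anti c p, h1, om_anti c q, h2]
  ring

private theorem ex_perp (h : om p q = 1) : ∃ c, c ≠ 0 ∧ om p c = 0 ∧ om q c = 0 := by
  by_cases h0 : pr p q ![1, 0, 0, 0] = 0
  · by_cases h2 : pr p q ![0, 0, 1, 0] = 0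
    · exfalso
      have e0 := congrFun h0 0
      have e2 := congrFun h2 2
      simp only [pr, om, Pi.smul_apply, Pi.add_apply, Pi.sub_apply, smul_eq_mul, Matrix.cons_val,
        Pi.zero_apply] at e0 e2
      unfold om at h
      linarith
    · exact ⟨_, h2, pr_left h _, pr_right h _⟩
  · exact ⟨_, h0, pr_left h _, pr_right h _⟩

private theorem sp_three (h : om p q = 1) {c : R4} (h1 : om p c = 0) (h2 : om q c = 0)
    (hc : c ≠ 0) : ∃ T : Matrix (Fin 4) (Fin 4) ℝ, Sp T ∧ T 0 = p ∧ T 1 = q ∧ T 2 = c := by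
  obtain ⟨d, h3, h4, h5⟩ := ex_comp h h1 h2 hc
  exact ⟨Matrix.of ![p, q, c, d], sp_of_rows h h5 h1 h3 h2 h4, rfl, rfl, rfl⟩

theorem sp_rows (h : p ⬝ᵥ (J *ᵥ q) = 1) :
    ∃ T : Matrix (Fin 4) (Fin 4) ℝ, Sp T ∧ T 0 = p ∧ T 1 = q := by
  rw [om_eq] at h
  obtain ⟨c, hc, h1, h2⟩ := ex_perp h
  obtain ⟨T, hT, h3, h4, -⟩ := sp_three h h1 h2 hc
  exact ⟨T, hT, h3, h4⟩

private theorem row_inv {R S D : Matrix (Fin 4) (Fin 4) ℝ} (h : R * S = D) (i : Fin 4) (x : R4) :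
    R i ⬝ᵥ (S *ᵥ x) = D i ⬝ᵥ x := by
  have h1 : (R *ᵥ (S *ᵥ x)) i = (D *ᵥ x) i := by
    rw [Matrix.mulVec_mulVec, h]
  exact h1

theorem rows_pair (h : l₀ ⬝ᵥ (J *ᵥ l₁) ≠ 0) : ∃ S : Matrix (Fin 4) (Fin 4) ℝ, Sp S ∧
    ∀ x : R4, (l₀ ⬝ᵥ (S *ᵥ x)) ^ 2 + (l₁ ⬝ᵥ (S *ᵥ x)) ^ 2 =
      |l₀ ⬝ᵥ (J *ᵥ l₁)| * (x 0 ^ 2 + x 1 ^ 2) := by
  rw [om_eq] at h ⊢
  have ha : 0 < |om l₀ l₁| := abs_pos.mpr h
  have hs : 0 < √|om l₀ l₁| := Real.sqrt_pos.mpr ha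
  have hss : √|om l₀ l₁| ^ 2 = |om l₀ l₁| := Real.sq_sqrt ha.le
  obtain ⟨σ, hσ, hσ'⟩ : ∃ σ : ℝ, σ ^ 2 = 1 ∧ σ * om l₀ l₁ = |om l₀ l₁| := by
    rcases lt_or_gt_of_ne h with h1 | h1
    · exact ⟨-1, by norm_num, by rw [abs_of_neg h1]; ring⟩
    · exact ⟨1, by norm_num, by rw [abs_of_pos h1]; ring⟩
  have hσ0 : σ ≠ 0 := by
    rintro rfl
    norm_num at hσ
  have h1 : om ((√|om l₀ l₁|)⁻¹ • l₀) (((√|om l₀ l₁|)⁻¹ * σ) • l₁) = 1 := by
    rw [om_smul]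
    have : (√|om l₀ l₁|)⁻¹ * ((√|om l₀ l₁|)⁻¹ * σ) * om l₀ l₁ =
        (√|om l₀ l₁| ^ 2)⁻¹ * (σ * om l₀ l₁) := by
      rw [pow_two, mul_inv]
      ring
    rw [this, hss, hσ', inv_mul_cancel₀ ha.ne']
  rw [← om_eq] at h1
  obtain ⟨R, hR, h2, h3⟩ := sp_rows h1
  obtain ⟨S, hS, -, hRS⟩ := hR.inv
  refine ⟨S, hS, fun x => ?_⟩
  have e0 : l₀ ⬝ᵥ (S *ᵥ x) = √|om l₀ l₁| * x 0 := by
    have h4 := row_inv hRS 0 x
    rw [h2, smul_dotProduct] at h4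
    have h5 : (1 : Matrix (Fin 4) (Fin 4) ℝ) 0 ⬝ᵥ x = x 0 := by
      simp [dotProduct, Fin.sum_univ_four, Matrix.one_apply]
    rw [h5, smul_eq_mul] at h4
    rw [← h4, mul_inv_cancel_left₀ hs.ne']
  have e1 : l₁ ⬝ᵥ (S *ᵥ x) = √|om l₀ l₁| * σ⁻¹ * x 1 := by
    have h4 := row_inv hRS 1 x
    rw [h3, smul_dotProduct] at h4
    have h5 : (1 : Matrix (Fin 4) (Fin 4) ℝ) 1 ⬝ᵥ x = x 1 := by
      simp [dotProduct, Fin.sum_univ_four, Matrix.one_apply]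
    rw [h5, smul_eq_mul] at h4
    rw [← h4]
    field_simp
  rw [e0, e1]
  have hσ2 : σ⁻¹ ^ 2 = 1 := by
    rw [inv_pow, hσ, inv_one]
  calc (√|om l₀ l₁| * x 0) ^ 2 + (√|om l₀ l₁| * σ⁻¹ * x 1) ^ 2
      = √|om l₀ l₁| ^ 2 * (x 0 ^ 2 + σ⁻¹ ^ 2 * x 1 ^ 2) := by ring
    _ = |om l₀ l₁| * (x 0 ^ 2 + x 1 ^ 2) := by rw [hss, hσ2, one_mul]

/-- two orthogonal vectors are in the span of two orthogonal rows of a symplectic matrix -/
private theorem lag (h : om l₀ l₁ = 0) : ∃ R : Matrix (Fin 4) (Fin 4) ℝ, Sp R ∧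
    ∃ a b c d : ℝ, l₀ = a • R 0 + b • R 2 ∧ l₁ = c • R 0 + d • R 2 := by
  by_cases h0 : l₀ = 0
  · by_cases h1 : l₁ = 0
    · refine ⟨1, ?_, 0, 0, 0, 0, ?_, ?_⟩
      · unfold Sp
        simp
      · rw [h0]
        simp
      · rw [h1]
        simp
    · obtain ⟨q, hq⟩ := ex_dual h1
      rw [← om_eq] at hq
      obtain ⟨R, hR, h2, -⟩ := sp_rows hq
      exact ⟨R, hR, 0, 0, 1, 0, by rw [h0]; simp, by rw [h2]; simp⟩
  · obtain ⟨q, hq⟩ := ex_dual h0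
    have e1 : om l₀ (pr l₀ q l₁) = 0 := pr_left hq l₁
    have e2 : om q (pr l₀ q l₁) = 0 := pr_right hq l₁
    have e3 : pr l₀ q l₁ = l₁ - om l₁ q • l₀ := by
      unfold pr
      rw [om_anti l₁ l₀, h]
      simp
    by_cases hz : pr l₀ q l₁ = 0
    · rw [← om_eq] at hq
      obtain ⟨R, hR, h2, -⟩ := sp_rows hq
      refine ⟨R, hR, 1, 0, om l₁ q, 0, by rw [h2]; simp, ?_⟩
      rw [e3, sub_eq_zero] at hz
      rw [h2, zero_smul, add_zero]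
      exact hz
    · obtain ⟨R, hR, h2, -, h4⟩ := sp_three hq e1 e2 hz
      refine ⟨R, hR, 1, 0, om l₁ q, 1, by rw [h2]; simp, ?_⟩
      rw [h2, h4, e3, one_smul]
      abel

theorem rows_small (h : l₀ ⬝ᵥ (J *ᵥ l₁) = 0) {ε : ℝ} (hε : 0 < ε) :
    ∃ S : Matrix (Fin 4) (Fin 4) ℝ, Sp S ∧ ∀ x : R4,
      (l₀ ⬝ᵥ (S *ᵥ x)) ^ 2 + (l₁ ⬝ᵥ (S *ᵥ x)) ^ 2 ≤ ε * ∑ a, x a ^ 2 := by
  rw [om_eq] at h
  obtain ⟨R, hR, a, b, c, d, h0, h1⟩ := lag h
  obtain ⟨R', hR', -, hRR⟩ := hR.inv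
  obtain ⟨t, ht, ht2⟩ : ∃ t : ℝ, 0 < t ∧ t ^ 2 * (a ^ 2 + b ^ 2 + c ^ 2 + d ^ 2) ≤ ε := by
    have hp : 0 < 1 + (a ^ 2 + b ^ 2 + c ^ 2 + d ^ 2) := by positivity
    refine ⟨√(ε / (1 + (a ^ 2 + b ^ 2 + c ^ 2 + d ^ 2))), Real.sqrt_pos.mpr (by positivity), ?_⟩
    rw [Real.sq_sqrt (by positivity), div_mul_eq_mul_div, div_le_iff₀ hp]
    nlinarith
  have hD : Sp (Matrix.diagonal ![t, t⁻¹, t, t⁻¹]) := by
    have htt : t * t⁻¹ = 1 := mul_inv_cancel₀ ht.ne'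
    refine sp_of_rows ?_ ?_ ?_ ?_ ?_ ?_ <;>
      simp [om, Matrix.diagonal_apply, htt]
  have hRS : R * (R' * Matrix.diagonal ![t, t⁻¹, t, t⁻¹]) =
      Matrix.diagonal ![t, t⁻¹, t, t⁻¹] := by
    rw [← Matrix.mul_assoc, hRR, Matrix.one_mul]
  refine ⟨R' * Matrix.diagonal ![t, t⁻¹, t, t⁻¹], hR'.mul hD, fun x => ?_⟩
  have r0 : R 0 ⬝ᵥ ((R' * Matrix.diagonal ![t, t⁻¹, t, t⁻¹]) *ᵥ x) = t * x 0 := by
    rw [row_inv hRS 0 x]
    simp [dotProduct, Fin.sum_univ_four, Matrix.diagonal_apply]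
  have r2 : R 2 ⬝ᵥ ((R' * Matrix.diagonal ![t, t⁻¹, t, t⁻¹]) *ᵥ x) = t * x 2 := by
    rw [row_inv hRS 2 x]
    simp [dotProduct, Fin.sum_univ_four, Matrix.diagonal_apply]
  rw [h0, h1]
  simp only [add_dotProduct, smul_dotProduct, smul_eq_mul, r0, r2]
  have hx : x 0 ^ 2 + x 2 ^ 2 ≤ ∑ a, x a ^ 2 := by
    rw [Fin.sum_univ_four]
    nlinarith [sq_nonneg (x 1), sq_nonneg (x 3)]
  have hq : ∀ u v y z : ℝ, (u * y + v * z) ^ 2 ≤ (u ^ 2 + v ^ 2) * (y ^ 2 + z ^ 2) := by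
    intro u v y z
    nlinarith [sq_nonneg (u * z - v * y)]
  have hab := hq a b (x 0) (x 2)
  have hcd := hq c d (x 0) (x 2)
  have ht0 : 0 ≤ t ^ 2 := sq_nonneg t
  calc (a * (t * x 0) + b * (t * x 2)) ^ 2 + (c * (t * x 0) + d * (t * x 2)) ^ 2
      = t ^ 2 * ((a * x 0 + b * x 2) ^ 2 + (c * x 0 + d * x 2) ^ 2) := by ring
    _ ≤ t ^ 2 * ((a ^ 2 + b ^ 2) * (x 0 ^ 2 + x 2 ^ 2) + (c ^ 2 + d ^ 2) * (x 0 ^ 2 + x 2 ^ 2)) :=
        mul_le_mul_of_nonneg_left (add_le_add hab hcd) ht0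
    _ = (t ^ 2 * (a ^ 2 + b ^ 2 + c ^ 2 + d ^ 2)) * (x 0 ^ 2 + x 2 ^ 2) := by ring
    _ ≤ ε * (x 0 ^ 2 + x 2 ^ 2) := mul_le_mul_of_nonneg_right ht2 (by positivity)
    _ ≤ ε * ∑ a, x a ^ 2 := mul_le_mul_of_nonneg_left hx hε.le

end Pool.Agent.SYC
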