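import Pool.Agent.SYC.CpB

/-!
# SYC/CpC: linear rigidity

(1) For `p · J q = 1`: `|p · (G J Gᵀ) q| ≥ δ`.  `T` from `sp_rows`, `l₀ = Gᵀ p`, `l₁ = Gᵀ q`, `κ = l₀ · J l₁ = p · (G J Gᵀ) q`; `(T G S x)_0 = p · G S x = l₀ · S x`, `(T G S x)_1 = l₁ · S x`.  If
`κ ≠ 0`: `S` from `rows_pair`: for `x ∈ Bl 1`: `(T G S x)_0² + (T G S x)_1² = |κ| (x_0² + x_1²) < |κ|`: `x ↦ T G S x` maps `Bl 1` into `Cy (√|κ|)`, so `δ ≤ |κ|`.  If `κ = 0`: `rows_small` with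
`ε < δ`: `Bl 1` goes into `Cy (√ε)`, `δ ≤ ε`, a contradiction.
(2) Let `β(p, q) = p · (G J Gᵀ) q`, `ω(p, q) = p · J q`, both bilinear and alternating.  Fix `p ≠ 0` and `q₀` with `ω(p, q₀) = 1`.  For all `v` with `ω(p, v) = 0`: `β(p, q₀ + t v) = β(p, q₀) + t β(p, v)` has
no zero `t`, so `β(p, v) = 0`.  Hence `β(p, ·) = μ(p) ω(p, ·)` with `μ(p) = β(p, q₀)`.
(3) `μ` is constant: evaluate at the basis vectors (`J` is explicit): `G J Gᵀ = μ J`; e.g. `μ(e_a)`: `β(e_0, e_1) = μ(e_0) = μ(e_1)`, `β(e_2, e_3) = μ(e_2) = μ(e_3)`, `β(e_a, e_b) = 0` for the other pairs, and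
`μ(e_0 + e_2) ω(e_0 + e_2, e_1) = β(e_0 + e_2, e_1) = β(e_0, e_1)`, and with `e_3`: `μ(e_0 + e_2) = β(e_2, e_3)`.  `|μ| ≥ δ` by (1) for `p = e_0`, `q = e_1`.
-/

open MeasureTheory Set Filter Topology
open scoped ContDiff Matrix ENNReal

namespace Pool.Agent.SYC

open Pool.Agent.SYH Pool.Agent.SYD

/-- nonsqueezing, for the linear map with the matrix `G` -/
def NS (δ : ℝ) (G : Matrix (Fin 4) (Fin 4) ℝ) : Prop :=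
  ∀ S T : Matrix (Fin 4) (Fin 4) ℝ, Sp S → Sp T → ∀ r : ℝ, 0 < r →
    (∀ x ∈ Bl 1, (T * G * S) *ᵥ x ∈ Cy r) → δ ≤ r ^ 2

private theorem row_apply {G S T : Matrix (Fin 4) (Fin 4) ℝ} {p : R4} {i : Fin 4} (h : T i = p)
    (x : R4) : ((T * G * S) *ᵥ x) i = (Gᵀ *ᵥ p) ⬝ᵥ (S *ᵥ x) := by
  rw [← Matrix.mulVec_mulVec, ← Matrix.mulVec_mulVec]
  show T i ⬝ᵥ (G *ᵥ (S *ᵥ x)) = _
  rw [h, Matrix.dotProduct_mulVec, Matrix.mulVec_transpose]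

private theorem bet_eq (G : Matrix (Fin 4) (Fin 4) ℝ) (p q : R4) :
    (Gᵀ *ᵥ p) ⬝ᵥ (J *ᵥ (Gᵀ *ᵥ q)) = p ⬝ᵥ ((G * J * Gᵀ) *ᵥ q) := by
  rw [← Matrix.mulVec_mulVec, ← Matrix.mulVec_mulVec, Matrix.dotProduct_mulVec p,
    Matrix.mulVec_transpose]

private theorem sum_le {x : R4} : x 0 ^ 2 + x 1 ^ 2 ≤ ∑ a, x a ^ 2 := by
  rw [Fin.sum_univ_four]
  nlinarith [sq_nonneg (x 2), sq_nonneg (x 3)]

private theorem low {δ : ℝ} (hδ : 0 < δ) {G : Matrix (Fin 4) (Fin 4) ℝ} (h : NS δ G) {p q : R4}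
    (hpq : p ⬝ᵥ (J *ᵥ q) = 1) : δ ≤ |p ⬝ᵥ ((G * J * Gᵀ) *ᵥ q)| := by
  obtain ⟨T, hT, h0, h1⟩ := sp_rows hpq
  by_cases hk : (Gᵀ *ᵥ p) ⬝ᵥ (J *ᵥ (Gᵀ *ᵥ q)) = 0
  · exfalso
    obtain ⟨S, hS, hx⟩ := rows_small hk (half_pos hδ)
    have hs : √(δ / 2) ^ 2 = δ / 2 := Real.sq_sqrt (half_pos hδ).le
    have h2 := h S T hS hT √(δ / 2) (Real.sqrt_pos.mpr (half_pos hδ)) (fun x hxb => by
      show ((T * G * S) *ᵥ x) 0 ^ 2 + ((T * G * S) *ᵥ x) 1 ^ 2 < √(δ / 2) ^ 2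
      rw [row_apply h0, row_apply h1, hs]
      have h3 : ∑ a, x a ^ 2 < 1 ^ 2 := hxb
      have h4 := hx x
      nlinarith)
    rw [hs] at h2
    linarith
  · obtain ⟨S, hS, hx⟩ := rows_pair hk
    have ha := abs_pos.mpr hk
    have hs := Real.sq_sqrt ha.le
    have h2 := h S T hS hT _ (Real.sqrt_pos.mpr ha) (fun x hxb => by
      show ((T * G * S) *ᵥ x) 0 ^ 2 + ((T * G * S) *ᵥ x) 1 ^ 2 < _ ^ 2
      rw [row_apply h0, row_apply h1, hs, hx]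
      have h3 : ∑ a, x a ^ 2 < 1 ^ 2 := hxb
      have h4 := sum_le (x := x)
      nlinarith)
    rw [hs, bet_eq] at h2
    exact h2

private theorem ort {δ : ℝ} (hδ : 0 < δ) {G : Matrix (Fin 4) (Fin 4) ℝ} (h : NS δ G) {p q v : R4}
    (hpq : p ⬝ᵥ (J *ᵥ q) = 1) (hv : p ⬝ᵥ (J *ᵥ v) = 0) : p ⬝ᵥ ((G * J * Gᵀ) *ᵥ v) = 0 := by
  by_contra hn
  have h1 : p ⬝ᵥ (J *ᵥ (q + (-(p ⬝ᵥ ((G * J * Gᵀ) *ᵥ q)) / (p ⬝ᵥ ((G * J * Gᵀ) *ᵥ v))) • v)) =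
      1 := by
    rw [Matrix.mulVec_add, Matrix.mulVec_smul, dotProduct_add, dotProduct_smul, hpq, hv]
    simp
  have h2 := low hδ h h1
  rw [Matrix.mulVec_add, Matrix.mulVec_smul, dotProduct_add, dotProduct_smul, smul_eq_mul,
    div_mul_cancel₀ _ hn, add_neg_cancel, abs_zero] at h2
  linarith

private theorem Jdot (a b : R4) :
    a ⬝ᵥ (J *ᵥ b) = a 0 * b 1 - a 1 * b 0 + (a 2 * b 3 - a 3 * b 2) := by
  unfold J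
  simp [Matrix.mulVec, dotProduct, Fin.sum_univ_four, Matrix.of_apply]
  ring

private theorem Bdot (B : Matrix (Fin 4) (Fin 4) ℝ) (a b : R4) :
    a ⬝ᵥ (B *ᵥ b) = a 0 * (B 0 0 * b 0 + B 0 1 * b 1 + B 0 2 * b 2 + B 0 3 * b 3) +
      a 1 * (B 1 0 * b 0 + B 1 1 * b 1 + B 1 2 * b 2 + B 1 3 * b 3) +
      a 2 * (B 2 0 * b 0 + B 2 1 * b 1 + B 2 2 * b 2 + B 2 3 * b 3) +
      a 3 * (B 3 0 * b 0 + B 3 1 * b 1 + B 3 2 * b 2 + B 3 3 * b 3) := by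
  simp [Matrix.mulVec, dotProduct, Fin.sum_univ_four]

theorem rigid {δ : ℝ} (hδ : 0 < δ) {G : Matrix (Fin 4) (Fin 4) ℝ} (h : NS δ G) :
    ∃ μ : ℝ, δ ≤ |μ| ∧ G * J * Gᵀ = μ • J := by
  have key : ∀ p q v : R4, p ⬝ᵥ (J *ᵥ q) = 1 → p ⬝ᵥ (J *ᵥ v) = 0 →
      p ⬝ᵥ ((G * J * Gᵀ) *ᵥ v) = 0 := fun p q v h1 h2 => ort hδ h h1 h2
  have key1 : ∀ p q : R4, p ⬝ᵥ (J *ᵥ q) = 1 → δ ≤ |p ⬝ᵥ ((G * J * Gᵀ) *ᵥ q)| :=
    fun p q h1 => low hδ h h1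
  generalize G * J * Gᵀ = B at key key1 ⊢
  have a00 := key ![1, 0, 0, 0] ![0, 1, 0, 0] ![1, 0, 0, 0] (by rw [Jdot]; simp)
    (by rw [Jdot]; simp)
  have a02 := key ![1, 0, 0, 0] ![0, 1, 0, 0] ![0, 0, 1, 0] (by rw [Jdot]; simp)
    (by rw [Jdot]; simp)
  have a03 := key ![1, 0, 0, 0] ![0, 1, 0, 0] ![0, 0, 0, 1] (by rw [Jdot]; simp)
    (by rw [Jdot]; simp)
  have a11 := key ![0, 1, 0, 0] ![-1, 0, 0, 0] ![0, 1, 0, 0] (by rw [Jdot]; simp)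
    (by rw [Jdot]; simp)
  have a12 := key ![0, 1, 0, 0] ![-1, 0, 0, 0] ![0, 0, 1, 0] (by rw [Jdot]; simp)
    (by rw [Jdot]; simp)
  have a13 := key ![0, 1, 0, 0] ![-1, 0, 0, 0] ![0, 0, 0, 1] (by rw [Jdot]; simp)
    (by rw [Jdot]; simp)
  have a20 := key ![0, 0, 1, 0] ![0, 0, 0, 1] ![1, 0, 0, 0] (by rw [Jdot]; simp)
    (by rw [Jdot]; simp)
  have a21 := key ![0, 0, 1, 0] ![0, 0, 0, 1] ![0, 1, 0, 0] (by rw [Jdot]; simp)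
    (by rw [Jdot]; simp)
  have a22 := key ![0, 0, 1, 0] ![0, 0, 0, 1] ![0, 0, 1, 0] (by rw [Jdot]; simp)
    (by rw [Jdot]; simp)
  have a30 := key ![0, 0, 0, 1] ![0, 0, -1, 0] ![1, 0, 0, 0] (by rw [Jdot]; simp)
    (by rw [Jdot]; simp)
  have a31 := key ![0, 0, 0, 1] ![0, 0, -1, 0] ![0, 1, 0, 0] (by rw [Jdot]; simp)
    (by rw [Jdot]; simp)
  have a33 := key ![0, 0, 0, 1] ![0, 0, -1, 0] ![0, 0, 0, 1] (by rw [Jdot]; simp)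
    (by rw [Jdot]; simp)
  -- `B 0 1 + B 1 0 = 0`, `B 2 3 + B 3 2 = 0`, `B 0 1 = B 2 3`
  have b01 := key ![1, 1, 0, 0] ![0, 1, 0, 0] ![1, 1, 0, 0] (by rw [Jdot]; simp)
    (by rw [Jdot]; simp)
  have b23 := key ![0, 0, 1, 1] ![0, 0, 0, 1] ![0, 0, 1, 1] (by rw [Jdot]; simp)
    (by rw [Jdot]; simp)
  have c := key ![1, 0, 1, 0] ![0, 1, 0, 0] ![0, 1, 0, -1] (by rw [Jdot]; simp)
    (by rw [Jdot]; simp)
  have d := key1 ![1, 0, 0, 0] ![0, 1, 0, 0] (by rw [Jdot]; simp)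
  simp only [Bdot, Matrix.cons_val, mul_zero, mul_one, zero_mul, one_mul, add_zero, zero_add]
    at a00 a02 a03 a11 a12 a13 a20 a21 a22 a30 a31 a33 b01 b23 c d
  refine ⟨B 0 1, d, ?_⟩
  ext i j
  rw [Matrix.smul_apply, smul_eq_mul]
  fin_cases i <;> fin_cases j <;> simp [J] <;> linarith

end Pool.Agent.SYC
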