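import Pool.Agent.SYC.CpC

/-!
# SYC/CpD: blow up at a point of differentiability

`Q_t (y) = (e (x + t y) - e x) / t`.  For a bounded open set `E` and small `t > 0` (`x + t E ⊆ W`): `c (Q_t '' E) = c E` (`conf` for `t` and `t⁻¹`, `c_trans`, `CapHomeo`), and `Q_t → mL G` uniformly on `E`
(`HasFDerivAt`).
`ns_of`: `E = mL S '' Bl 1`, bounded open, `c E = c (Bl 1)`.  If `(T G S) x ∈ Cy r` for `x ∈ Bl 1`: for `η > 0` and small `t`: `T (Q_t y) ∈ Cy (r + η)` for `y ∈ E`, so `mL T '' (Q_t '' E) ⊆ Cy (r + η)`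
(`Q_t '' E` is open), `c (Bl 1) ≤ (r + η)² c (Cy 1)`; `η → 0`: `c (Bl 1) ≤ r² c (Cy 1)`.  `δ = (c (Bl 1) / c (Cy 1)).toReal > 0` (`c (Bl 1) ≤ c (Cy 1)`, `pos`, `fin`).
`mu_ge`: `G` is invertible (`μ ≠ 0`).  For `η > 0` and small `t`: `Q_t '' Bl 1 ⊆ mL G '' Bl (1 + η)` (`G⁻¹ Q_t → id` uniformly), so `c (Bl 1) ≤ |μ| (1 + η)² c (Bl 1)` (`c_conf`); `c (Bl 1) ≠ 0, ⊤`.
-/

open MeasureTheory Set Filter Topology
open scoped ContDiff Matrix ENNReal

namespace Pool.Agent.SYC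

open Pool.Agent.SYH Pool.Agent.SYD

variable {c : Set R4 → ℝ≥0∞} {e : OpenPartialHomeomorph R4 R4} {x : R4}
  {G : Matrix (Fin 4) (Fin 4) ℝ}

theorem CpD_mL (A : Matrix (Fin 4) (Fin 4) ℝ) (v : R4) : mL A v = A *ᵥ v := by
  simp [mL]

theorem CpD_mul {A B : Matrix (Fin 4) (Fin 4) ℝ} (v : R4) : mL A (mL B v) = mL (A * B) v := by
  rw [CpD_mL, CpD_mL, CpD_mL, Matrix.mulVec_mulVec]

theorem CpD_one (v : R4) : mL (1 : Matrix (Fin 4) (Fin 4) ℝ) v = v := by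
  rw [CpD_mL, Matrix.one_mulVec]

theorem CpD_img {A B : Matrix (Fin 4) (Fin 4) ℝ} (h1 : B * A = 1) (h2 : A * B = 1)
    (U : Set R4) : mL A '' U = mL B ⁻¹' U := by
  ext v
  constructor
  · rintro ⟨u, hu, rfl⟩
    show mL B (mL A u) ∈ U
    rw [CpD_mul, h1, CpD_one]
    exact hu
  · intro hv
    refine ⟨mL B v, hv, ?_⟩
    rw [CpD_mul, h2, CpD_one]

theorem CpD_img_open {A B : Matrix (Fin 4) (Fin 4) ℝ} (h1 : B * A = 1) (h2 : A * B = 1)
    {U : Set R4} (hU : IsOpen U) : IsOpen (mL A '' U) := by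
  rw [CpD_img h1 h2]
  exact hU.preimage (mL B).continuous

theorem CpD_smul_open {U : Set R4} (hU : IsOpen U) {t : ℝ} (ht : 0 < t) :
    IsOpen ((fun y : R4 => t • y) '' U) := hU.smul₀ ht.ne'

theorem CpD_add_open {U : Set R4} (hU : IsOpen U) (v : R4) :
    IsOpen ((fun y : R4 => y + v) '' U) := (Homeomorph.addRight v).isOpenMap U hU

/-- the blow up -/
noncomputable def CpD_Q (e : OpenPartialHomeomorph R4 R4) (x : R4) (t : ℝ) (y : R4) : R4 :=
  t⁻¹ • (e (t • y + x) + -e x)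

theorem CpD_blow (hc : IsCap c) {W : Set R4} (hWs : W ⊆ e.source)
    (hW : ∀ O ⊆ W, IsOpen O → c (e '' O) = c O) {E : Set R4} (hE : IsOpen E) {t : ℝ} (ht : 0 < t)
    (hs : ∀ y ∈ E, t • y + x ∈ W) :
    IsOpen (CpD_Q e x t '' E) ∧ c (CpD_Q e x t '' E) = c E := by
  set E1 : Set R4 := (fun y : R4 => t • y) '' E with hE1
  set E2 : Set R4 := (fun y : R4 => y + x) '' E1 with hE2
  have o1 : IsOpen E1 := CpD_smul_open hE ht
  have o2 : IsOpen E2 := CpD_add_open o1 x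
  have s2 : E2 ⊆ W := by
    rintro _ ⟨_, ⟨y, hy, rfl⟩, rfl⟩
    exact hs y hy
  have o3 : IsOpen (e '' E2) := e.isOpen_image_of_subset_source o2 (s2.trans hWs)
  have o4 := CpD_add_open o3 (-e x)
  have ht' : 0 < t⁻¹ := inv_pos.2 ht
  have o5 := CpD_smul_open o4 ht'
  have hQ : CpD_Q e x t '' E =
      (fun y : R4 => t⁻¹ • y) '' ((fun y : R4 => y + -e x) '' (e '' E2)) := by
    rw [hE2, hE1, image_image, image_image, image_image, image_image]
    rfl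
  rw [hQ]
  refine ⟨o5, ?_⟩
  rw [hc.conf _ _ o4 ht', c_trans hc o3, hW _ s2 o2, hE2, c_trans hc o1, hE1,
    hc.conf _ _ hE ht, ← mul_assoc, ← ENNReal.ofReal_mul (by positivity)]
  have : t⁻¹ ^ 2 * t ^ 2 = 1 := by
    rw [← mul_pow, inv_mul_cancel₀ ht.ne', one_pow]
  rw [this, ENNReal.ofReal_one, one_mul]

theorem CpD_conv (hG : HasFDerivAt e (mL G) x) {W : Set R4} (hWo : IsOpen W) (hx : x ∈ W)
    {R η : ℝ} (hR : 0 < R) (hη : 0 < η) : ∃ t : ℝ, 0 < t ∧ ∀ y : R4, ‖y‖ ≤ R →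
      t • y + x ∈ W ∧ ‖CpD_Q e x t y - mL G y‖ ≤ η := by
  have h1 := hG.isLittleO
  have h2 := Asymptotics.isLittleO_iff.1 h1 (show 0 < η / R by positivity)
  obtain ⟨ρ, hρ, h3⟩ := Metric.eventually_nhds_iff.1 (h2.and (hWo.mem_nhds hx))
  refine ⟨ρ / (2 * R), by positivity, fun y hy => ?_⟩
  set t : ℝ := ρ / (2 * R) with ht
  have ht0 : 0 < t := by positivity
  have hty : ‖t • y‖ ≤ ρ / 2 := by
    rw [norm_smul, Real.norm_of_nonneg ht0.le]
    calc t * ‖y‖ ≤ t * R := mul_le_mul_of_nonneg_left hy ht0.le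
      _ = ρ / 2 := by rw [ht]; field_simp
  have hd : dist (t • y + x) x < ρ := by
    rw [dist_eq_norm, add_sub_cancel_right]
    linarith
  obtain ⟨h4, h5⟩ := h3 hd
  refine ⟨h5, ?_⟩
  rw [add_sub_cancel_right] at h4
  have h6 : CpD_Q e x t y - mL G y = t⁻¹ • (e (t • y + x) - e x - mL G (t • y)) := by
    unfold CpD_Q
    rw [map_smul, smul_sub, smul_smul, inv_mul_cancel₀ ht0.ne', one_smul, sub_eq_add_neg (e _)]
  rw [h6, norm_smul, norm_inv, Real.norm_of_nonneg ht0.le]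
  calc t⁻¹ * ‖e (t • y + x) - e x - mL G (t • y)‖ ≤ t⁻¹ * (η / R * ‖t • y‖) :=
        mul_le_mul_of_nonneg_left h4 (inv_pos.2 ht0).le
    _ ≤ t⁻¹ * (η / R * (t * R)) := by
        refine mul_le_mul_of_nonneg_left (mul_le_mul_of_nonneg_left ?_ (by positivity))
          (inv_pos.2 ht0).le
        rw [norm_smul, Real.norm_of_nonneg ht0.le]
        exact mul_le_mul_of_nonneg_left hy ht0.le
    _ = η := by field_simp

theorem CpD_bl_norm {y : R4} (hy : y ∈ Bl 1) : ‖y‖ ≤ 1 := by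
  refine (pi_norm_le_iff_of_nonneg zero_le_one).2 fun a => ?_
  have h1 : y a ^ 2 ≤ ∑ b, y b ^ 2 :=
    Finset.single_le_sum (f := fun b => y b ^ 2) (fun b _ => sq_nonneg _) (Finset.mem_univ a)
  have h2 : ∑ b, y b ^ 2 < 1 ^ 2 := hy
  rw [Real.norm_eq_abs]
  exact abs_le_of_sq_le_sq (by linarith) zero_le_one

theorem CpD_bl_cy : Bl 1 ⊆ Cy 1 := by
  intro y hy
  have h : ∑ b, y b ^ 2 < 1 ^ 2 := hy
  rw [Fin.sum_univ_four] at h
  show y 0 ^ 2 + y 1 ^ 2 < 1 ^ 2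
  nlinarith [sq_nonneg (y 2), sq_nonneg (y 3)]

theorem ns_of (hc : IsCap c) : ∃ δ : ℝ, 0 < δ ∧ ∀ (e : OpenPartialHomeomorph R4 R4) (x : R4)
    (G : Matrix (Fin 4) (Fin 4) ℝ), CapHomeo c e → x ∈ e.source → HasFDerivAt e (mL G) x →
    NS δ G := by
  have hle : c (Bl 1) ≤ c (Cy 1) := c_mono hc (bl_open 1) (cy_open 1) CpD_bl_cy
  have hb0 := hc.pos
  have hbt := c_ball_ne hc
  have hct := hc.fin
  have hc0 : c (Cy 1) ≠ 0 := fun h => hb0 (nonpos_iff_eq_zero.1 (hle.trans h.le))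
  have hdt : c (Bl 1) / c (Cy 1) ≠ ⊤ := ENNReal.div_ne_top hbt hc0
  have hd0 : c (Bl 1) / c (Cy 1) ≠ 0 := ENNReal.div_ne_zero.2 ⟨hb0, hct⟩
  refine ⟨(c (Bl 1) / c (Cy 1)).toReal, ENNReal.toReal_pos hd0 hdt, ?_⟩
  intro e x G he hx hG S T hS hT r hr hmap
  obtain ⟨W, hWo, hxW, hWs, hW⟩ := he x hx
  obtain ⟨S', -, hS1, hS2⟩ := hS.inv
  obtain ⟨T', -, hT1, hT2⟩ := hT.inv
  have key : ∀ η : ℝ, 0 < η → (c (Bl 1) / c (Cy 1)).toReal ≤ (r + 2 * η) ^ 2 := by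
    intro η hη
    have hE : IsOpen (mL S '' Bl 1) := CpD_img_open hS1 hS2 (bl_open 1)
    have hR : ∀ y ∈ mL S '' Bl 1, ‖y‖ ≤ ‖mL S‖ + 1 := by
      rintro _ ⟨u, hu, rfl⟩
      have h1 := (mL S).le_opNorm u
      have h2 := CpD_bl_norm hu
      nlinarith [norm_nonneg (mL S)]
    obtain ⟨t, ht, hQ⟩ := CpD_conv (G := G) hG hWo hxW
      (show 0 < ‖mL S‖ + 1 by positivity) (show 0 < η / (‖mL T‖ + 1) by positivity)
    obtain ⟨o1, c1⟩ := CpD_blow hc hWs hW hE ht (fun y hy => (hQ y (hR y hy)).1)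
    have c2 := c_lin hc o1 hT
    have o2 : IsOpen (mL T '' (CpD_Q e x t '' (mL S '' Bl 1))) := CpD_img_open hT1 hT2 o1
    have hsub : mL T '' (CpD_Q e x t '' (mL S '' Bl 1)) ⊆ Cy (r + 2 * η) := by
      rintro _ ⟨_, ⟨y, hy, rfl⟩, rfl⟩
      have h1 := (hQ y (hR y hy)).2
      have h2 : ‖mL T (CpD_Q e x t y) - mL T (mL G y)‖ ≤ η := by
        rw [← map_sub]
        refine ((mL T).le_opNorm _).trans ?_
        calc ‖mL T‖ * ‖CpD_Q e x t y - mL G y‖ ≤ (‖mL T‖ + 1) * (η / (‖mL T‖ + 1)) :=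
              mul_le_mul (by linarith) h1 (norm_nonneg _) (by positivity)
          _ = η := by field_simp
      have h3 : mL T (mL G y) ∈ Cy r := by
        obtain ⟨u, hu, rfl⟩ := hy
        have h4 := hmap u hu
        rw [← CpD_mL] at h4
        rw [CpD_mul, CpD_mul]
        exact h4
      have h5 : ∀ a, |mL T (CpD_Q e x t y) a - mL T (mL G y) a| ≤ η := by
        intro a
        have := (norm_le_pi_norm (mL T (CpD_Q e x t y) - mL T (mL G y)) a).trans h2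
        simpa using this
      have h6 : (mL T (mL G y)) 0 ^ 2 + (mL T (mL G y)) 1 ^ 2 < r ^ 2 := h3
      show (mL T (CpD_Q e x t y)) 0 ^ 2 + (mL T (CpD_Q e x t y)) 1 ^ 2 < (r + 2 * η) ^ 2
      have a0 := abs_le.1 (h5 0)
      have a1 := abs_le.1 (h5 1)
      generalize (mL T (CpD_Q e x t y)) 0 = p0 at a0 ⊢
      generalize (mL T (CpD_Q e x t y)) 1 = p1 at a1 ⊢
      generalize (mL T (mL G y)) 0 = q0 at a0 h6
      generalize (mL T (mL G y)) 1 = q1 at a1 h6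
      have b0 : |q0| ≤ r := abs_le_of_sq_le_sq (by nlinarith [sq_nonneg q1]) hr.le
      have b1 : |q1| ≤ r := abs_le_of_sq_le_sq (by nlinarith [sq_nonneg q0]) hr.le
      have c0 : |p0 - q0| ≤ η := abs_le.2 a0
      have c1 : |p1 - q1| ≤ η := abs_le.2 a1
      have d0 : q0 * (p0 - q0) ≤ r * η := by
        refine (le_abs_self _).trans ?_
        rw [abs_mul]
        exact mul_le_mul b0 c0 (abs_nonneg _) hr.le
      have d1 : q1 * (p1 - q1) ≤ r * η := by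
        refine (le_abs_self _).trans ?_
        rw [abs_mul]
        exact mul_le_mul b1 c1 (abs_nonneg _) hr.le
      have e0 : (p0 - q0) ^ 2 ≤ η ^ 2 := sq_le_sq' a0.1 a0.2
      have e1 : (p1 - q1) ^ 2 ≤ η ^ 2 := sq_le_sq' a1.1 a1.2
      nlinarith
    have hfin := c_mono hc o2 (cy_open _) hsub
    rw [c2, c1, c_lin hc (bl_open 1) hS, c_cyl hc (by positivity)] at hfin
    have h7 : c (Bl 1) / c (Cy 1) ≤ ENNReal.ofReal ((r + 2 * η) ^ 2) :=
      ENNReal.div_le_of_le_mul hfin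
    exact ENNReal.toReal_le_of_le_ofReal (by positivity) h7
  refine le_of_forall_pos_le_add fun κ hκ => ?_
  -- choose η with (r + 2 η)² ≤ r² + κ
  have h8 := key (min 1 (κ / (4 * r + 4))) (lt_min one_pos (by positivity))
  refine h8.trans ?_
  set η := min 1 (κ / (4 * r + 4)) with hη
  have h9 : η ≤ 1 := min_le_left _ _
  have h10 : η * (4 * r + 4) ≤ κ := by
    have : η ≤ κ / (4 * r + 4) := min_le_right _ _
    rwa [le_div_iff₀ (by positivity)] at this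
  have h11 : 0 < η := lt_min one_pos (by positivity)
  nlinarith

theorem CpD_inv {μ : ℝ} (hμ : μ ≠ 0) (h : G * J * Gᵀ = μ • J) : ∃ B, B * G = 1 ∧ G * B = 1 := by
  have hJ : J * J = -1 := by
    ext i j
    fin_cases i <;> fin_cases j <;>
      simp [J, Matrix.mul_apply, Fin.sum_univ_four]
  have h1 : G * (-(μ⁻¹) • (J * Gᵀ * J)) = 1 := by
    have : G * (-(μ⁻¹) • (J * Gᵀ * J)) = -(μ⁻¹) • (G * J * Gᵀ * J) := by
      rw [Matrix.mul_smul]
      simp only [Matrix.mul_assoc]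
    rw [this, h, Matrix.smul_mul, hJ, smul_smul, smul_neg]
    simp [hμ]
  exact ⟨_, mul_eq_one_comm.1 h1, h1⟩

theorem mu_ge (hc : IsCap c) (he : CapHomeo c e) (hx : x ∈ e.source)
    (hG : HasFDerivAt e (mL G) x) {μ : ℝ} (hμ : μ ≠ 0) (h : G * J * Gᵀ = μ • J) : 1 ≤ |μ| := by
  obtain ⟨W, hWo, hxW, hWs, hW⟩ := he x hx
  obtain ⟨B, hB1, hB2⟩ := CpD_inv hμ h
  have hb0 := hc.pos
  have hbt := c_ball_ne hc
  have key : ∀ η : ℝ, 0 < η → 1 ≤ |μ| * (1 + η) ^ 2 := by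
    intro η hη
    obtain ⟨t, ht, hQ⟩ := CpD_conv (G := G) hG hWo hxW one_pos
      (show 0 < η / 4 / (‖mL B‖ + 1) by positivity)
    obtain ⟨o1, c1⟩ := CpD_blow hc hWs hW (bl_open 1) ht
      (fun y hy => (hQ y (CpD_bl_norm hy)).1)
    have o2 : IsOpen (mL G '' Bl (1 + η)) := CpD_img_open hB1 hB2 (bl_open _)
    have hsub : CpD_Q e x t '' Bl 1 ⊆ mL G '' Bl (1 + η) := by
      rintro _ ⟨y, hy, rfl⟩
      rw [CpD_img hB1 hB2]
      show mL B (CpD_Q e x t y) ∈ Bl (1 + η)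
      have h1 := (hQ y (CpD_bl_norm hy)).2
      have h2 : ‖mL B (CpD_Q e x t y) - y‖ ≤ η / 4 := by
        have h3 : y = mL B (mL G y) := by rw [CpD_mul, hB1, CpD_one]
        have h4 : mL B (CpD_Q e x t y) - y = mL B (CpD_Q e x t y - mL G y) := by
          rw [map_sub, ← h3]
        rw [h4]
        refine ((mL B).le_opNorm _).trans ?_
        calc ‖mL B‖ * ‖CpD_Q e x t y - mL G y‖ ≤ (‖mL B‖ + 1) * (η / 4 / (‖mL B‖ + 1)) :=
              mul_le_mul (by linarith) h1 (norm_nonneg _) (by positivity)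
          _ = η / 4 := by field_simp
      have h5 : ∀ a, |mL B (CpD_Q e x t y) a - y a| ≤ η / 4 := by
        intro a
        have := (norm_le_pi_norm (mL B (CpD_Q e x t y) - y) a).trans h2
        simpa using this
      have h6 : ∀ a, |y a| ≤ 1 := by
        intro a
        have := (norm_le_pi_norm y a).trans (CpD_bl_norm hy)
        simpa using this
      have h7 : ∑ a, y a ^ 2 < 1 ^ 2 := hy
      show ∑ a, mL B (CpD_Q e x t y) a ^ 2 < (1 + η) ^ 2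
      have h8 : ∀ a, mL B (CpD_Q e x t y) a ^ 2 ≤ y a ^ 2 + η / 2 + η ^ 2 / 16 := by
        intro a
        have k1 := h5 a
        have k2 := h6 a
        generalize mL B (CpD_Q e x t y) a = p at k1 ⊢
        generalize y a = q at k1 k2 ⊢
        have k3 : q * (p - q) ≤ 1 * (η / 4) := by
          refine (le_abs_self _).trans ?_
          rw [abs_mul]
          exact mul_le_mul k2 k1 (abs_nonneg _) zero_le_one
        have k4 : (p - q) ^ 2 ≤ (η / 4) ^ 2 := sq_le_sq' (abs_le.1 k1).1 (abs_le.1 k1).2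
        nlinarith
      have h9 := Finset.sum_le_sum fun a (_ : a ∈ Finset.univ) => h8 a
      rw [Finset.sum_add_distrib, Finset.sum_add_distrib] at h9
      simp only [Finset.sum_const, Finset.card_univ, Fintype.card_fin, nsmul_eq_mul] at h9
      push_cast at h9
      nlinarith [sq_nonneg η]
    have hfin := c_mono hc o1 o2 hsub
    rw [c1, c_conf hc hμ h (by positivity)] at hfin
    have h10 : 1 * c (Bl 1) ≤ ENNReal.ofReal (|μ| * (1 + η) ^ 2) * c (Bl 1) := by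
      rwa [one_mul]
    have h11 := (ENNReal.mul_le_mul_iff_left hb0 hbt).1 h10
    have h12 : ENNReal.ofReal 1 ≤ ENNReal.ofReal (|μ| * (1 + η) ^ 2) := by
      rwa [ENNReal.ofReal_one]
    exact (ENNReal.ofReal_le_ofReal_iff (by positivity)).1 h12
  by_contra hlt
  push Not at hlt
  have h0 : 0 < |μ| := abs_pos.2 hμ
  -- η = (1 - |μ|) / 4
  have h1 := key ((1 - |μ|) / 4) (by linarith)
  nlinarith [mul_pos h0 (show 0 < 1 - |μ| by linarith), sq_nonneg (1 - |μ|)]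

end Pool.Agent.SYC
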