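import Pool.Agent.SYD.SmW
import Pool.Agent.SYH.SgM

/-!
# SYC/Defs: symplectic capacities and capacity preserving homeomorphisms

`MP_9a66f1_gt`, sense (A): the four-sphere has no atlas whose transition maps preserve a symplectic capacity and are of class
`W^{1,p}_loc`, `p > 3`.  Basic notions (`R4`, `J`, `Test`, `LpL`, `WG`, `IsWD`, `SobSympPM`) are in `Pool/Agent/SYH`; `jac` is in
`Pool/Agent/SYD/SmW`.
-/

open MeasureTheory Set Filter Topology
open scoped ContDiff Matrix ENNReal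

namespace Pool.Agent.SYC

open Pool.Agent.SYH Pool.Agent.SYD

/-- the euclidean ball of radius `r` -/
def Bl (r : ℝ) : Set R4 := {x | ∑ a, x a ^ 2 < r ^ 2}

/-- the symplectic cylinder of radius `r` -/
def Cy (r : ℝ) : Set R4 := {x | x 0 ^ 2 + x 1 ^ 2 < r ^ 2}

/-- symplectic embeddings of `U` into `V` -/
structure SEmb (f : R4 → R4) (U V : Set R4) : Prop where
  smooth : ContDiffOn ℝ ∞ f U
  inj : InjOn f U
  symp : ∀ x ∈ U, (jac f x)ᵀ * J * jac f x = J
  maps : MapsTo f U V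

/-- symplectic capacities, for open subsets of `ℝ⁴` -/
structure IsCap (c : Set R4 → ℝ≥0∞) : Prop where
  mono : ∀ U V f, IsOpen U → IsOpen V → SEmb f U V → c U ≤ c V
  conf : ∀ (U : Set R4) (t : ℝ), IsOpen U → 0 < t →
    c ((fun x => t • x) '' U) = ENNReal.ofReal (t ^ 2) * c U
  pos : c (Bl 1) ≠ 0
  fin : c (Cy 1) ≠ ⊤

/-- the homeomorphism `e` preserves the capacity `c`, in sense (A) -/
def CapHomeo (c : Set R4 → ℝ≥0∞) (e : OpenPartialHomeomorph R4 R4) : Prop :=
  ∀ x ∈ e.source, ∃ W, IsOpen W ∧ x ∈ W ∧ W ⊆ e.source ∧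
    ∀ O ⊆ W, IsOpen O → c (e '' O) = c O

/-- symplectic matrices -/
def Sp (S : Matrix (Fin 4) (Fin 4) ℝ) : Prop := Sᵀ * J * S = J

/-- the linear map with the matrix `G` -/
noncomputable def mL (G : Matrix (Fin 4) (Fin 4) ℝ) : R4 →L[ℝ] R4 :=
  LinearMap.toContinuousLinearMap (Matrix.toLin' G)

end Pool.Agent.SYC
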