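import Mathlib

/-!
# SYC/DfA: Morrey's inequality on cubes of `ℝ³` (`p > 3`)

`B = closedBall z r` in `Fin 3 → ℝ` (sup norm; `|B| = (2r)³`).  The proof of `SYH/Mor` with `3` in place of `4`: for `x, w ∈ B`: `|f x - f w| ≤ 2 r ∫_0^1 Σ_a |∂_a f (x + s (w - x))| ds`; average over
`w ∈ B`, substitute `y = x + s (w - x)` (Jacobian `s³`), Hölder on the image: `s^{-3/p}` is integrable on `(0, 1)`.
-/

open MeasureTheory Set Filter Topology
open scoped ContDiff ENNReal

namespace Pool.Agent.SYC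

namespace DfA

/-- three dimensional space, sup norm -/
abbrev R3 := Fin 3 → ℝ

lemma ftc {f : R3 → ℝ} (hf : ContDiff ℝ 1 f) (x w : R3) :
    ENNReal.ofReal |f w - f x| ≤
      ∫⁻ s in Ioo (0 : ℝ) 1, ENNReal.ofReal |fderiv ℝ f (x + s • (w - x)) (w - x)| := by
  have hc : Continuous (fun s : ℝ => fderiv ℝ f (x + s • (w - x)) (w - x)) := by
    refine ((hf.continuous_fderiv (by norm_num)).comp ?_).clm_apply continuous_const
    fun_prop
  have h1 : ∫ s in (0 : ℝ)..1, fderiv ℝ f (x + s • (w - x)) (w - x) = f w - f x := by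
    have h2 : ∀ s ∈ uIcc (0 : ℝ) 1, HasDerivAt (fun s : ℝ => f (x + s • (w - x)))
        (fderiv ℝ f (x + s • (w - x)) (w - x)) s := by
      intro s _
      have h2 : HasDerivAt (fun s : ℝ => x + s • (w - x)) (w - x) s := by
        simpa using ((hasDerivAt_id s).smul_const (w - x)).const_add x
      exact ((hf.differentiable (by norm_num)) _).hasFDerivAt.comp_hasDerivAt s h2
    rw [intervalIntegral.integral_eq_sub_of_hasDerivAt h2 (hc.intervalIntegrable _ _)]
    simp
  rw [← h1, intervalIntegral.integral_of_le zero_le_one, integral_Ioc_eq_integral_Ioo]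
  rw [← Real.enorm_eq_ofReal_abs]
  refine (enorm_integral_le_lintegral_enorm _).trans (le_of_eq ?_)
  simp_rw [Real.enorm_eq_ofReal_abs]

lemma ftc2 {f : R3 → ℝ} (hf : ContDiff ℝ 1 f) {z : R3} {r : ℝ} {x w : R3}
    (hx : x ∈ Metric.closedBall z r) (hw : w ∈ Metric.closedBall z r) :
    ENNReal.ofReal |f w - f x| ≤
      ∫⁻ s in Ioo (0 : ℝ) 1, ENNReal.ofReal (2 * r) * ‖fderiv ℝ f (x + s • (w - x))‖ₑ := by
  refine (ftc hf x w).trans (lintegral_mono fun s => ?_)
  have h2 : ‖w - x‖ ≤ 2 * r := by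
    rw [← dist_eq_norm]
    have h3 := Metric.mem_closedBall.mp hx
    have h4 := Metric.mem_closedBall.mp hw
    have h5 := dist_triangle w z x
    rw [dist_comm z x] at h5
    linarith
  rw [← ofReal_norm, ← ENNReal.ofReal_mul ((norm_nonneg _).trans h2)]
  apply ENNReal.ofReal_le_ofReal
  rw [← Real.norm_eq_abs, mul_comm]
  exact (ContinuousLinearMap.le_opNorm _ _).trans
    (mul_le_mul_of_nonneg_left h2 (norm_nonneg _))

/-- the homothety -/
lemma map_T (x : R3) {s : ℝ} (hs : 0 < s) :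
    Measure.map (fun w : R3 => x + s • (w - x)) volume =
      ENNReal.ofReal ((s ^ 3)⁻¹) • (volume : Measure R3) := by
  have h1 : (fun w : R3 => x + s • (w - x)) = (fun y => (x - s • x) + y) ∘ (fun w => s • w) := by
    ext w i
    simp [smul_sub]
    ring
  rw [h1, ← Measure.map_map (by fun_prop) (by fun_prop), Measure.map_addHaar_smul volume hs.ne',
    Measure.map_smul, map_add_left_eq_self]
  congr 2
  rw [abs_of_pos (by positivity)]
  simp

lemma hom_bound {E : Type*} [NormedAddCommGroup E] [SecondCountableTopology E]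
    {p : ℝ≥0∞} (hp : 1 ≤ p) (hpt : p ≠ ⊤) {h : R3 → E} (hh : Continuous h)
    {z x : R3} {r s : ℝ} (hs : 0 < s) (hs1 : s < 1) (hx : x ∈ Metric.closedBall z r) :
    ∫⁻ w in Metric.closedBall z r, ‖h (x + s • (w - x))‖ₑ ≤
      ENNReal.ofReal ((s ^ 3)⁻¹) ^ (1 / p.toReal) *
        (eLpNorm h p (volume.restrict (Metric.closedBall z r)) *
          volume (Metric.closedBall z r) ^ (1 - 1 / p.toReal)) := by
  set B := Metric.closedBall z r with hB
  set T : R3 → R3 := fun w => x + s • (w - x) with hT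
  have hTc : Continuous T := by rw [hT]; fun_prop
  have hTm : Measurable T := hTc.measurable
  have hBm : MeasurableSet B := Metric.isClosed_closedBall.measurableSet
  have hsub : B ⊆ T ⁻¹' B := by
    intro w hw
    have := convex_closedBall z r hx hw (by linarith : (0 : ℝ) ≤ 1 - s) hs.le (by ring)
    have e : (1 - s) • x + s • w = T w := by
      rw [hT]; ext i; simp; ring
    rw [e] at this
    exact this
  have h1 : ∫⁻ w in B, ‖h (T w)‖ₑ = eLpNorm (h ∘ T) 1 (volume.restrict B) := by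
    rw [eLpNorm_one_eq_lintegral_enorm]; rfl
  rw [h1]
  have h2 := eLpNorm_le_eLpNorm_mul_rpow_measure_univ hp
    (μ := volume.restrict B) (f := h ∘ T) (hh.comp hTc).aestronglyMeasurable
  refine h2.trans ?_
  rw [Measure.restrict_apply_univ, ENNReal.toReal_one, div_one, ← mul_assoc]
  gcongr
  calc eLpNorm (h ∘ T) p (volume.restrict B)
      ≤ eLpNorm (h ∘ T) p (volume.restrict (T ⁻¹' B)) :=
        eLpNorm_mono_measure _ (Measure.restrict_mono hsub le_rfl)
    _ = eLpNorm h p (Measure.map T (volume.restrict (T ⁻¹' B))) := by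
        rw [eLpNorm_map_measure hh.aestronglyMeasurable hTm.aemeasurable]
    _ = eLpNorm h p ((ENNReal.ofReal ((s ^ 3)⁻¹) • (volume : Measure R3)).restrict B) := by
        rw [← Measure.restrict_map hTm hBm, map_T x hs]
    _ = _ := by
        rw [Measure.restrict_smul, eLpNorm_smul_measure_of_ne_top hpt, smul_eq_mul]
        simp

/-- the constant -/
noncomputable def Ip (p : ℝ≥0∞) : ℝ≥0∞ :=
  ∫⁻ s in Ioo (0 : ℝ) 1, ENNReal.ofReal ((s ^ 3)⁻¹) ^ (1 / p.toReal)

lemma Ip_lt {p : ℝ≥0∞} (hp4 : 3 < p.toReal) : Ip p ≠ ⊤ := by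
  have h1 : Ip p = ∫⁻ s in Ioo (0 : ℝ) 1, ENNReal.ofReal (s ^ (-(3 / p.toReal))) := by
    unfold Ip
    refine setLIntegral_congr_fun measurableSet_Ioo fun s hs => ?_
    have hs0 : 0 < s := hs.1
    rw [ENNReal.ofReal_rpow_of_nonneg (by positivity) (by positivity)]
    congr 1
    rw [Real.inv_rpow (by positivity), ← Real.rpow_natCast, ← Real.rpow_mul hs0.le,
      ← Real.rpow_neg hs0.le]
    congr 1
    push_cast
    ring
  rw [h1]
  have h2 : IntervalIntegrable (fun s : ℝ => s ^ (-(3 / p.toReal))) volume 0 1 := by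
    apply intervalIntegral.intervalIntegrable_rpow'
    have : 3 / p.toReal < 1 := by
      rw [div_lt_one (by linarith)]; exact hp4
    linarith
  have h3 : IntegrableOn (fun s : ℝ => s ^ (-(3 / p.toReal))) (Ioo 0 1) := by
    rw [intervalIntegrable_iff_integrableOn_Ioo_of_le zero_le_one] at h2
    exact h2
  exact (Integrable.lintegral_lt_top h3).ne

lemma avg {p : ℝ≥0∞} (hp : 1 ≤ p) (hpt : p ≠ ⊤) {f : R3 → ℝ} (hf : ContDiff ℝ 1 f) {z : R3}
    {r : ℝ} {x : R3} (hx : x ∈ Metric.closedBall z r) :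
    ∫⁻ w in Metric.closedBall z r, ENNReal.ofReal |f w - f x| ≤
      ENNReal.ofReal (2 * r) * (Ip p *
        (eLpNorm (fderiv ℝ f) p (volume.restrict (Metric.closedBall z r)) *
          volume (Metric.closedBall z r) ^ (1 - 1 / p.toReal))) := by
  set B := Metric.closedBall z r with hB
  have hBm : MeasurableSet B := Metric.isClosed_closedBall.measurableSet
  have hcf : Continuous (fderiv ℝ f) := hf.continuous_fderiv (by norm_num)
  have h1 : ∫⁻ w in B, ENNReal.ofReal |f w - f x| ≤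
      ∫⁻ w in B, ∫⁻ s in Ioo (0 : ℝ) 1,
        ENNReal.ofReal (2 * r) * ‖fderiv ℝ f (x + s • (w - x))‖ₑ :=
    setLIntegral_mono' hBm fun w hw => ftc2 hf hx hw
  refine h1.trans ?_
  have hcont : Continuous (fun q : R3 × ℝ => ‖fderiv ℝ f (x + q.2 • (q.1 - x))‖ₑ) := by
    refine continuous_enorm.comp (hcf.comp ?_)
    fun_prop
  have hmeas : Measurable (fun q : R3 × ℝ =>
      ENNReal.ofReal (2 * r) * ‖fderiv ℝ f (x + q.2 • (q.1 - x))‖ₑ) :=
    hcont.measurable.const_mul _
  rw [lintegral_lintegral_swap (by exact hmeas.aemeasurable)]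
  have h2 : ∀ s ∈ Ioo (0 : ℝ) 1, ∫⁻ w in B,
      ENNReal.ofReal (2 * r) * ‖fderiv ℝ f (x + s • (w - x))‖ₑ ≤
      ENNReal.ofReal (2 * r) * (ENNReal.ofReal ((s ^ 3)⁻¹) ^ (1 / p.toReal) *
        (eLpNorm (fderiv ℝ f) p (volume.restrict B) * volume B ^ (1 - 1 / p.toReal))) := by
    intro s hs
    have hm : Measurable (fun w : R3 => ‖fderiv ℝ f (x + s • (w - x))‖ₑ) := by
      refine (continuous_enorm.comp (hcf.comp ?_)).measurable
      fun_prop
    rw [lintegral_const_mul _ hm]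
    gcongr ENNReal.ofReal (2 * r) * ?_
    exact hom_bound hp hpt hcf hs.1 hs.2 hx
  refine (setLIntegral_mono' measurableSet_Ioo h2).trans (le_of_eq ?_)
  have hm2 : Measurable (fun s : ℝ => ENNReal.ofReal ((s ^ 3)⁻¹) ^ (1 / p.toReal)) := by
    fun_prop
  rw [lintegral_const_mul _ (hm2.mul_const _), lintegral_mul_const _ hm2]
  rfl

theorem morrey' {p : ℝ≥0∞} (hp : 1 ≤ p) (hpt : p ≠ ⊤) (hp4 : 3 < p.toReal)
    (f : R3 → ℝ) (z : R3) (r : ℝ) (hf : ContDiff ℝ 1 f) (hr : 0 < r)
    (x : R3) (hx : x ∈ Metric.closedBall z r) (y : R3) (hy : y ∈ Metric.closedBall z r) :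
      ENNReal.ofReal |f x - f y| ≤ 4 * Ip p * ENNReal.ofReal (r ^ (1 - 3 / p.toReal)) *
        eLpNorm (fderiv ℝ f) p (volume.restrict (Metric.closedBall z r)) := by
  set B := Metric.closedBall z r with hB
  have hBm : MeasurableSet B := Metric.isClosed_closedBall.measurableSet
  set V := volume B with hV
  have hVe : V = ENNReal.ofReal ((2 * r) ^ 3) := by
    rw [hV, hB, Real.volume_pi_closedBall z hr.le]
    simp
  have hV0 : V ≠ 0 := by
    rw [hVe]
    have : 0 < (2 * r) ^ 3 := by positivity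
    simpa using this
  have hVt : V ≠ ⊤ := by rw [hVe]; exact ENNReal.ofReal_ne_top
  set S := eLpNorm (fderiv ℝ f) p (volume.restrict B) with hS
  have h1 : V * ENNReal.ofReal |f x - f y| ≤
      ENNReal.ofReal (2 * r) * (Ip p * (S * V ^ (1 - 1 / p.toReal))) +
      ENNReal.ofReal (2 * r) * (Ip p * (S * V ^ (1 - 1 / p.toReal))) := by
    calc V * ENNReal.ofReal |f x - f y| = ∫⁻ _w in B, ENNReal.ofReal |f x - f y| := by
          rw [lintegral_const, Measure.restrict_apply_univ, mul_comm]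
      _ ≤ ∫⁻ w in B, (ENNReal.ofReal |f w - f x| + ENNReal.ofReal |f w - f y|) := by
          refine lintegral_mono fun w => ?_
          rw [← ENNReal.ofReal_add (abs_nonneg _) (abs_nonneg _)]
          apply ENNReal.ofReal_le_ofReal
          have e : f x - f y = (f w - f y) - (f w - f x) := by ring
          rw [e]
          have := abs_sub (f w - f y) (f w - f x)
          linarith
      _ = (∫⁻ w in B, ENNReal.ofReal |f w - f x|) + ∫⁻ w in B, ENNReal.ofReal |f w - f y| := by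
          rw [lintegral_add_left]
          have := hf.continuous
          fun_prop
      _ ≤ _ := add_le_add (avg hp hpt hf hx) (avg hp hpt hf hy)
  have hVp : V ^ (1 - 1 / p.toReal) = V * V ^ (-(1 / p.toReal)) := by
    rw [sub_eq_add_neg, ENNReal.rpow_add _ _ hV0 hVt, ENNReal.rpow_one]
  have hk : ENNReal.ofReal (2 * r) * V ^ (-(1 / p.toReal)) ≤
      2 * ENNReal.ofReal (r ^ (1 - 3 / p.toReal)) := by
    rw [hVe, ENNReal.ofReal_rpow_of_pos (by positivity), ← ENNReal.ofReal_mul (by positivity)]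
    have e2 : (2 : ℝ≥0∞) = ENNReal.ofReal 2 := by simp
    rw [e2, ← ENNReal.ofReal_mul (by norm_num)]
    apply ENNReal.ofReal_le_ofReal
    rw [← Real.rpow_natCast (2 * r) 3, ← Real.rpow_mul (by positivity)]
    have e3 : (((3 : ℕ) : ℝ) * -(1 / p.toReal)) = -(3 / p.toReal) := by push_cast; ring
    rw [e3, Real.mul_rpow (by norm_num) hr.le, sub_eq_add_neg, Real.rpow_add hr, Real.rpow_one]
    have e4 : (2 : ℝ) ^ (-(3 / p.toReal)) ≤ 1 := by
      apply Real.rpow_le_one_of_one_le_of_nonpos (by norm_num)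
      have : 0 ≤ 3 / p.toReal := by positivity
      linarith
    have e5 : 0 ≤ r ^ (-(3 / p.toReal)) := by positivity
    have e6 : (2 : ℝ) ^ (-(3 / p.toReal)) * r ^ (-(3 / p.toReal)) ≤ r ^ (-(3 / p.toReal)) :=
      mul_le_of_le_one_left e5 e4
    nlinarith
  have h2 : V * ENNReal.ofReal |f x - f y| ≤
      V * (4 * Ip p * ENNReal.ofReal (r ^ (1 - 3 / p.toReal)) * S) := by
    refine h1.trans ?_
    rw [hVp]
    calc _ = V * (2 * Ip p * S * (ENNReal.ofReal (2 * r) * V ^ (-(1 / p.toReal)))) := by ring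
      _ ≤ V * (2 * Ip p * S * (2 * ENNReal.ofReal (r ^ (1 - 3 / p.toReal)))) := by gcongr
      _ = _ := by ring
  exact (ENNReal.mul_le_mul_iff_right hV0 hVt).mp h2

end DfA

theorem morrey3 {p : ℝ} (hp : 3 < p) : ∃ C : ℝ, 0 ≤ C ∧ ∀ (f : (Fin 3 → ℝ) → ℝ) (z : Fin 3 → ℝ)
    (r : ℝ), ContDiff ℝ 1 f → 0 < r → ∀ x ∈ Metric.closedBall z r, ∀ y ∈ Metric.closedBall z r,
    ENNReal.ofReal (|f x - f y| ^ p) ≤ ENNReal.ofReal (C * r ^ (p - 3)) *
      ∫⁻ w in Metric.closedBall z r, ‖fderiv ℝ f w‖ₑ ^ p := by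
  have hp0 : 0 < p := by linarith
  set q : ℝ≥0∞ := ENNReal.ofReal p with hq
  have hqr : q.toReal = p := ENNReal.toReal_ofReal hp0.le
  have hqt : q ≠ ⊤ := ENNReal.ofReal_ne_top
  have hq0 : q ≠ 0 := by
    rw [hq]; simpa using hp0
  have hq1 : 1 ≤ q := by
    rw [hq, ← ENNReal.ofReal_one]
    exact ENNReal.ofReal_le_ofReal (by linarith)
  have hI : DfA.Ip q ≠ ⊤ := DfA.Ip_lt (by rw [hqr]; exact hp)
  refine ⟨(4 * (DfA.Ip q).toReal) ^ p, by positivity, ?_⟩
  intro f z r hf hr x hx y hy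
  have h := DfA.morrey' hq1 hqt (by rw [hqr]; exact hp) f z r hf hr x hx y hy
  rw [hqr] at h
  have h2 := ENNReal.rpow_le_rpow h hp0.le
  rw [ENNReal.ofReal_rpow_of_nonneg (abs_nonneg _) hp0.le] at h2
  refine h2.trans (le_of_eq ?_)
  rw [ENNReal.mul_rpow_of_nonneg _ _ hp0.le]
  congr 1
  · have e1 : 4 * DfA.Ip q = ENNReal.ofReal (4 * (DfA.Ip q).toReal) := by
      rw [ENNReal.ofReal_mul (by norm_num), ENNReal.ofReal_toReal hI]
      simp
    rw [e1, ← ENNReal.ofReal_mul (by positivity), ENNReal.ofReal_rpow_of_nonneg (by positivity) hp0.le,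
      Real.mul_rpow (by positivity) (by positivity), ← Real.rpow_mul hr.le]
    congr 3
    field_simp
  · rw [eLpNorm_eq_lintegral_rpow_enorm_toReal hq0 hqt, hqr, ← ENNReal.rpow_mul]
    rw [one_div, inv_mul_cancel₀ hp0.ne', ENNReal.rpow_one]

end Pool.Agent.SYC
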