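import Pool.Agent.SYC.DfA
import Pool.Agent.SYH.Bas

/-!
# SYC/DfB: a sphere (boundary of a cube) on which a smooth function oscillates little

`Q_t = closedBall z t` (sup norm of `ℝ⁴`), `∂ Q_t = sphere z t` has the 8 faces `{x ∈ Q_t | x_a = z_a ± t}`, each isometric to a cube of `ℝ³` (`Fin.insertNth a (z_a ± t)`), two faces are either opposite or
have common points, so `osc_{∂ Q_t} f ≤ 3 max_faces osc` (a chain of three faces).  `morrey3` on each face (the restriction of `f` to the face is `C¹`, its derivative is bounded by `‖fderiv f‖`):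
`osc_{∂ Q_t} f ^ p ≤ C t ^ (p - 3) Σ_faces ∫_face ‖fderiv f‖ ^ p` for every `t`.  Integrate over `t ∈ [r, 2 r]`: for fixed `a` and sign the faces are disjoint subsets of `Q_{2r}`, Fubini in the coordinate `a`:
`∫_r^{2r} ∫_face ≤ ∫_{Q_{2r}} ‖fderiv f‖ ^ p`.  If `osc_{∂ Q_t} f ^ p > M` for all `t ∈ [r, 2r]` then `r M ≤ 8 C (2 r) ^ (p - 3) ∫_{Q_{2r}} ‖fderiv f‖ ^ p`.
(Measurable: replace the oscillation by the constant `M`.)
-/

open MeasureTheory Set Filter Topology
open scoped ContDiff ENNReal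

namespace Pool.Agent.SYC

open Pool.Agent.SYH

/-- the remaining coordinates -/
def DfB_rm (a : Fin 4) (x : R4) : Fin 3 → ℝ := fun i => x (a.succAbove i)

/-- insertion of a coordinate -/
def DfB_in (a : Fin 4) (s : ℝ) (y : Fin 3 → ℝ) : R4 := Fin.insertNth (α := fun _ => ℝ) a s y

theorem DfB_in_same (a : Fin 4) (s : ℝ) (y : Fin 3 → ℝ) : DfB_in a s y a = s := by
  simp [DfB_in]

theorem DfB_in_succ (a : Fin 4) (s : ℝ) (y : Fin 3 → ℝ) (i : Fin 3) :
    DfB_in a s y (a.succAbove i) = y i := by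
  simp [DfB_in]

theorem DfB_ext (a : Fin 4) {x y : R4} (h : x a = y a)
    (h' : ∀ i : Fin 3, x (a.succAbove i) = y (a.succAbove i)) : x = y := by
  funext j
  revert j
  rw [Fin.forall_iff_succAbove a]
  exact ⟨h, h'⟩

theorem DfB_in_rm (a : Fin 4) (x : R4) : DfB_in a (x a) (DfB_rm a x) = x := by
  refine DfB_ext a ?_ ?_
  · rw [DfB_in_same]
  · intro i
    rw [DfB_in_succ]
    rfl

/-- the linear part of the insertion -/
noncomputable def DfB_L (a : Fin 4) : (Fin 3 → ℝ) →L[ℝ] R4 :=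
  LinearMap.toContinuousLinearMap
    { toFun := fun y => DfB_in a 0 y
      map_add' := by
        intro y y'
        refine DfB_ext a ?_ ?_
        · simp [DfB_in_same]
        · intro i
          simp [DfB_in_succ]
      map_smul' := by
        intro c y
        refine DfB_ext a ?_ ?_
        · simp [DfB_in_same]
        · intro i
          simp [DfB_in_succ] }

theorem DfB_L_apply (a : Fin 4) (y : Fin 3 → ℝ) : DfB_L a y = DfB_in a 0 y := rfl

theorem DfB_in_eq (a : Fin 4) (s : ℝ) (y : Fin 3 → ℝ) : DfB_in a s y = DfB_in a s 0 + DfB_L a y := by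
  rw [DfB_L_apply]
  refine DfB_ext a ?_ ?_
  · simp [DfB_in_same]
  · intro i
    simp [DfB_in_succ]

theorem DfB_L_norm (a : Fin 4) : ‖DfB_L a‖ ≤ 1 := by
  refine ContinuousLinearMap.opNorm_le_bound _ zero_le_one ?_
  intro y
  rw [DfB_L_apply, one_mul, pi_norm_le_iff_of_nonneg (norm_nonneg _), Fin.forall_iff_succAbove a]
  refine ⟨?_, ?_⟩
  · rw [DfB_in_same]
    simp
  · intro i
    rw [DfB_in_succ]
    exact norm_le_pi_norm y i

theorem DfB_norm_fd {f : R4 → ℝ} (w : R4) : ‖fderiv ℝ f w‖ ≤ ∑ b, ‖pd b f w‖ := by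
  refine ContinuousLinearMap.opNorm_le_bound _ (Finset.sum_nonneg fun _ _ => norm_nonneg _) ?_
  intro v
  rw [fderiv_eq_sum, Finset.sum_mul]
  refine (norm_sum_le _ _).trans (Finset.sum_le_sum fun b _ => ?_)
  rw [norm_mul, mul_comm]
  exact mul_le_mul_of_nonneg_left (norm_le_pi_norm v b) (norm_nonneg _)

theorem DfB_fd {f : R4 → ℝ} (hf : ContDiff ℝ 1 f) (a : Fin 4) (s : ℝ) (y : Fin 3 → ℝ) :
    ‖fderiv ℝ (fun y => f (DfB_in a s y)) y‖ ≤ ∑ b, ‖pd b f (DfB_in a s y)‖ := by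
  have h1 : HasFDerivAt (fun y => DfB_in a s y) (DfB_L a) y := by
    have : (fun y => DfB_in a s y) = fun y => DfB_in a s 0 + DfB_L a y := by
      funext y
      exact DfB_in_eq a s y
    rw [this]
    exact (DfB_L a).hasFDerivAt.const_add _
  have h2 : HasFDerivAt f (fderiv ℝ f (DfB_in a s y)) (DfB_in a s y) :=
    (hf.differentiable (by simp)).differentiableAt.hasFDerivAt
  have h3 := h2.comp y h1
  have h4 : fderiv ℝ (fun y => f (DfB_in a s y)) y = (fderiv ℝ f (DfB_in a s y)).comp (DfB_L a) :=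
    h3.fderiv
  rw [h4]
  refine (ContinuousLinearMap.opNorm_comp_le _ _).trans ?_
  refine (mul_le_mul_of_nonneg_left (DfB_L_norm a) (norm_nonneg _)).trans ?_
  rw [mul_one]
  exact DfB_norm_fd _

theorem DfB_cd {f : R4 → ℝ} (hf : ContDiff ℝ 1 f) (a : Fin 4) (s : ℝ) :
    ContDiff ℝ 1 (fun y => f (DfB_in a s y)) := by
  have : (fun y => f (DfB_in a s y)) = fun y => f (DfB_in a s 0 + DfB_L a y) := by
    funext y
    rw [DfB_in_eq a s y]
  rw [this]
  exact hf.comp (contDiff_const.add (DfB_L a).contDiff)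

/-- the density -/
noncomputable def DfB_g (p : ℝ) (f : R4 → ℝ) (w : R4) : ℝ≥0∞ := (∑ b, ‖pd b f w‖ₑ) ^ p

theorem DfB_g_meas (p : ℝ) {f : R4 → ℝ} (hf : ContDiff ℝ 1 f) : Measurable (DfB_g p f) := by
  unfold DfB_g
  have : ∀ b, Continuous (pd b f) := by
    intro b
    exact (hf.continuous_fderiv (by simp)).clm_apply continuous_const
  refine Measurable.pow_const ?_ p
  refine Finset.measurable_fun_sum _ fun b _ => ?_
  exact (this b).measurable.enorm

theorem DfB_in_meas (a : Fin 4) : Measurable (fun u : ℝ × (Fin 3 → ℝ) => DfB_in a u.1 u.2) := by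
  exact (MeasurableEquiv.piFinSuccAbove (fun _ : Fin 4 => ℝ) a).symm.measurable

/-- the integral over a slice -/
noncomputable def DfB_P (p : ℝ) (f : R4 → ℝ) (z : R4) (R : ℝ) (a : Fin 4) (s : ℝ) : ℝ≥0∞ :=
  ∫⁻ y in Metric.closedBall (DfB_rm a z) R, DfB_g p f (DfB_in a s y)

theorem DfB_P_meas (p : ℝ) {f : R4 → ℝ} (hf : ContDiff ℝ 1 f) (z : R4) (R : ℝ) (a : Fin 4) :
    Measurable (DfB_P p f z R a) := by
  have h : Measurable (fun u : ℝ × (Fin 3 → ℝ) => DfB_g p f (DfB_in a u.1 u.2)) :=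
    (DfB_g_meas p hf).comp (DfB_in_meas a)
  exact h.lintegral_prod_right'

theorem DfB_ball (a : Fin 4) (z : R4) {R : ℝ} (hR : 0 ≤ R) (s : ℝ) (y : Fin 3 → ℝ) :
    DfB_in a s y ∈ Metric.closedBall z R ↔
      s ∈ Metric.closedBall (z a) R ∧ y ∈ Metric.closedBall (DfB_rm a z) R := by
  rw [Metric.mem_closedBall, dist_pi_le_iff hR, Fin.forall_iff_succAbove a, DfB_in_same,
    Metric.mem_closedBall, Metric.mem_closedBall, dist_pi_le_iff hR]
  simp only [DfB_in_succ]
  rfl

theorem DfB_fub (p : ℝ) {f : R4 → ℝ} (hf : ContDiff ℝ 1 f) (z : R4) {R : ℝ} (hR : 0 ≤ R)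
    (a : Fin 4) :
    ∫⁻ s in Metric.closedBall (z a) R, DfB_P p f z R a s =
      ∫⁻ w in Metric.closedBall z R, DfB_g p f w := by
  have hm := (volume_preserving_piFinSuccAbove (fun _ : Fin 4 => ℝ) a).symm
  rw [← hm.setLIntegral_comp_preimage measurableSet_closedBall (DfB_g_meas p hf)]
  have hpre : (MeasurableEquiv.piFinSuccAbove (fun _ : Fin 4 => ℝ) a).symm ⁻¹'
      Metric.closedBall z R =
      Metric.closedBall (z a) R ×ˢ Metric.closedBall (DfB_rm a z) R := by
    ext u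
    exact DfB_ball a z hR u.1 u.2
  rw [hpre]
  have h : Measurable (fun u : ℝ × (Fin 3 → ℝ) => DfB_g p f (DfB_in a u.1 u.2)) :=
    (DfB_g_meas p hf).comp (DfB_in_meas a)
  rw [Measure.volume_eq_prod]
  exact (setLIntegral_prod _ h.aemeasurable).symm

theorem DfB_face {p : ℝ} {C : ℝ} (hp : 3 < p)
    (hC : ∀ (f : (Fin 3 → ℝ) → ℝ) (z : Fin 3 → ℝ)
      (r : ℝ), ContDiff ℝ 1 f → 0 < r → ∀ x ∈ Metric.closedBall z r, ∀ y ∈ Metric.closedBall z r,
      ENNReal.ofReal (|f x - f y| ^ p) ≤ ENNReal.ofReal (C * r ^ (p - 3)) *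
        ∫⁻ w in Metric.closedBall z r, ‖fderiv ℝ f w‖ₑ ^ p) (hC0 : 0 ≤ C)
    {f : R4 → ℝ} (hf : ContDiff ℝ 1 f) {z : R4} {t R : ℝ} (ht : 0 < t) (htR : t ≤ R) (a : Fin 4)
    {x y : R4} (hx : x ∈ Metric.closedBall z t) (hy : y ∈ Metric.closedBall z t)
    (hxy : x a = y a) :
    ENNReal.ofReal (|f x - f y| ^ p) ≤ ENNReal.ofReal (C * R ^ (p - 3)) *
      DfB_P p f z R a (x a) := by
  have h1 := hC (fun y => f (DfB_in a (x a) y)) (DfB_rm a z) t (DfB_cd hf a _) ht
    (DfB_rm a x) ?_ (DfB_rm a y) ?_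
  · rw [DfB_in_rm] at h1
    rw [show DfB_in a (x a) (DfB_rm a y) = y from by rw [hxy]; exact DfB_in_rm a y] at h1
    refine h1.trans ?_
    refine mul_le_mul' (ENNReal.ofReal_le_ofReal ?_) ?_
    · refine mul_le_mul_of_nonneg_left ?_ hC0
      exact Real.rpow_le_rpow ht.le htR (by linarith)
    · unfold DfB_P
      refine (lintegral_mono_set (Metric.closedBall_subset_closedBall htR)).trans ?_
      refine lintegral_mono fun w => ?_
      unfold DfB_g
      refine ENNReal.rpow_le_rpow ?_ (by linarith)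
      have h2 := DfB_fd hf a (x a) w
      have h3 : ‖fderiv ℝ (fun y => f (DfB_in a (x a) y)) w‖ₑ ≤
          ENNReal.ofReal (∑ b, ‖pd b f (DfB_in a (x a) w)‖) := by
        rw [← ofReal_norm]
        exact ENNReal.ofReal_le_ofReal h2
      refine h3.trans ?_
      rw [ENNReal.ofReal_sum_of_nonneg fun _ _ => norm_nonneg _]
      refine Finset.sum_le_sum fun b _ => ?_
      rw [ofReal_norm]
  · have := (DfB_ball a z ht.le (x a) (DfB_rm a x)).1 (by rw [DfB_in_rm]; exact hx)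
    exact this.2
  · have := (DfB_ball a z ht.le (y a) (DfB_rm a y)).1 (by rw [DfB_in_rm]; exact hy)
    exact this.2

theorem DfB_coord {z x : R4} {t : ℝ} (ht : 0 < t) (hx : x ∈ Metric.sphere z t) :
    ∃ a, x a = z a + t ∨ x a = z a - t := by
  by_contra hc
  push Not at hc
  have hx' : dist x z = t := hx
  have h1 : dist x z < t := by
    rw [dist_pi_lt_iff ht]
    intro a
    have h2 : dist (x a) (z a) ≤ t := hx' ▸ dist_le_pi_dist x z a
    rcases lt_or_eq_of_le h2 with h3 | h3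
    · exact h3
    · exfalso
      rw [Real.dist_eq] at h3
      rcases (abs_eq ht.le).1 h3 with h4 | h4
      · exact (hc a).1 (by linarith)
      · exact (hc a).2 (by linarith)
  linarith

/-- the sum over the faces -/
noncomputable def DfB_S (p : ℝ) (f : R4 → ℝ) (z : R4) (R : ℝ) (t : ℝ) : ℝ≥0∞ :=
  ∑ a, (DfB_P p f z R a (z a + t) + DfB_P p f z R a (z a - t))

theorem DfB_S_meas (p : ℝ) {f : R4 → ℝ} (hf : ContDiff ℝ 1 f) (z : R4) (R : ℝ) :
    Measurable (DfB_S p f z R) := by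
  unfold DfB_S
  refine Finset.measurable_fun_sum _ fun a _ => ?_
  refine Measurable.add ?_ ?_
  · exact (DfB_P_meas p hf z R a).comp (measurable_const.add measurable_id)
  · exact (DfB_P_meas p hf z R a).comp (measurable_const.sub measurable_id)

theorem DfB_S_int (p : ℝ) {f : R4 → ℝ} (hf : ContDiff ℝ 1 f) (z : R4) {r R : ℝ} (hr : 0 ≤ r)
    (hR : 0 ≤ R) :
    ∫⁻ t in Icc r R, DfB_S p f z R t ≤ 8 * ∫⁻ w in Metric.closedBall z R, DfB_g p f w := by
  unfold DfB_S
  have hm1 : ∀ a, Measurable fun t : ℝ => DfB_P p f z R a (z a + t) := fun a =>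
    (DfB_P_meas p hf z R a).comp (measurable_const.add measurable_id)
  have hm2 : ∀ a, Measurable fun t : ℝ => DfB_P p f z R a (z a - t) := fun a =>
    (DfB_P_meas p hf z R a).comp (measurable_const.sub measurable_id)
  have hm3 : ∀ a, Measurable fun t : ℝ => (DfB_P p f z R a (z a + t) + DfB_P p f z R a (z a - t)) :=
    fun a => (hm1 a).add (hm2 a)
  rw [lintegral_finsetSum _ fun a _ => hm3 a]
  have key : ∀ a, ∫⁻ t in Icc r R, (DfB_P p f z R a (z a + t) + DfB_P p f z R a (z a - t)) ≤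
      2 * ∫⁻ w in Metric.closedBall z R, DfB_g p f w := by
    intro a
    rw [lintegral_add_left (hm1 a), two_mul, ← DfB_fub p hf z hR a]
    refine add_le_add ?_ ?_
    · rw [← (measurePreserving_add_left (volume : Measure ℝ) (z a)).setLIntegral_comp_preimage
        measurableSet_closedBall (DfB_P_meas p hf z R a)]
      refine lintegral_mono_set ?_
      intro t ht
      rw [mem_preimage, Metric.mem_closedBall, Real.dist_eq, add_sub_cancel_left,
        abs_of_nonneg (hr.trans ht.1)]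
      exact ht.2
    · rw [← ((volume : Measure ℝ).measurePreserving_sub_left (z a)).setLIntegral_comp_preimage
        measurableSet_closedBall (DfB_P_meas p hf z R a)]
      refine lintegral_mono_set ?_
      intro t ht
      rw [mem_preimage, Metric.mem_closedBall, Real.dist_eq,
        show z a - t - z a = -t from by ring, abs_neg, abs_of_nonneg (hr.trans ht.1)]
      exact ht.2
  refine (Finset.sum_le_sum fun a _ => key a).trans ?_
  rw [Finset.sum_const, Finset.card_univ, Fintype.card_fin, nsmul_eq_mul, ← mul_assoc]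
  refine le_of_eq ?_
  norm_num

theorem DfB_exists (p : ℝ) {f : R4 → ℝ} (hf : ContDiff ℝ 1 f) (z : R4) {r : ℝ} (hr : 0 < r) :
    ∃ t ∈ Icc r (2 * r), DfB_S p f z (2 * r) t ≤
      (8 * ∫⁻ w in Metric.closedBall z (2 * r), DfB_g p f w) / ENNReal.ofReal r := by
  have hv : volume (Icc r (2 * r)) = ENNReal.ofReal r := by
    rw [Real.volume_Icc]
    congr 1
    ring
  obtain ⟨t, ht, h⟩ := exists_le_setLAverage (μ := (volume : Measure ℝ)) (s := Icc r (2 * r))
    (f := DfB_S p f z (2 * r)) (by rw [hv]; simpa using hr) (by rw [hv]; simp)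
    (DfB_S_meas p hf z (2 * r)).aemeasurable
  refine ⟨t, ht, h.trans ?_⟩
  rw [setLAverage_eq, hv]
  exact ENNReal.div_le_div_right (DfB_S_int p hf z hr.le (by linarith)) _

/-- a point of two faces -/
def DfB_q (z : R4) (t : ℝ) (a c : Fin 4) (s : ℝ) : R4 :=
  fun i => if i = a then s else if i = c then z c + t else z i

theorem DfB_q_mem {z : R4} {t : ℝ} (ht : 0 < t) (a c : Fin 4) {s : ℝ}
    (hs : s = z a + t ∨ s = z a - t) : DfB_q z t a c s ∈ Metric.closedBall z t := by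
  rw [Metric.mem_closedBall, dist_pi_le_iff ht.le]
  intro i
  unfold DfB_q
  rw [Real.dist_eq]
  split_ifs with h1 h2
  · subst h1
    rcases hs with h | h
    · rw [h, add_sub_cancel_left, abs_of_pos ht]
    · rw [h, show z i - t - z i = -t from by ring, abs_neg, abs_of_pos ht]
  · subst h2
    rw [add_sub_cancel_left, abs_of_pos ht]
  · rw [sub_self, abs_zero]
    exact ht.le

theorem DfB_three {u v w : ℝ} {p : ℝ} (hp : 0 < p) {M : ℝ≥0∞}
    (hu : ENNReal.ofReal (|u| ^ p) ≤ M) (hv : ENNReal.ofReal (|v| ^ p) ≤ M)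
    (hw : ENNReal.ofReal (|w| ^ p) ≤ M) :
    ENNReal.ofReal (|u + v + w| ^ p) ≤ ENNReal.ofReal (3 ^ p) * M := by
  have e : ∀ x : ℝ, ENNReal.ofReal (|x| ^ p) = ENNReal.ofReal |x| ^ p := by
    intro x
    rw [ENNReal.ofReal_rpow_of_nonneg (abs_nonneg _) hp.le]
  have h0 : ∀ x : ℝ, ENNReal.ofReal (|x| ^ p) ≤ M → ENNReal.ofReal |x| ≤ M ^ (1 / p) := by
    intro x hx
    rw [e] at hx
    rw [one_div, ENNReal.le_rpow_inv_iff hp]
    exact hx
  have h1 : ENNReal.ofReal |u + v + w| ≤ 3 * M ^ (1 / p) := by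
    calc ENNReal.ofReal |u + v + w| ≤ ENNReal.ofReal (|u| + |v| + |w|) :=
          ENNReal.ofReal_le_ofReal (abs_add_three u v w)
      _ = ENNReal.ofReal |u| + ENNReal.ofReal |v| + ENNReal.ofReal |w| := by
          rw [ENNReal.ofReal_add (by positivity) (by positivity),
            ENNReal.ofReal_add (by positivity) (by positivity)]
      _ ≤ M ^ (1 / p) + M ^ (1 / p) + M ^ (1 / p) :=
          add_le_add (add_le_add (h0 u hu) (h0 v hv)) (h0 w hw)
      _ = 3 * M ^ (1 / p) := by ring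
  rw [e]
  refine (ENNReal.rpow_le_rpow h1 hp.le).trans ?_
  rw [ENNReal.mul_rpow_of_nonneg _ _ hp.le, ← ENNReal.rpow_mul, one_div_mul_cancel hp.ne',
    ENNReal.rpow_one]
  refine le_of_eq ?_
  congr 1
  rw [← ENNReal.ofReal_rpow_of_nonneg (by norm_num) hp.le]
  congr 1
  simp

theorem DfB_conv {p : ℝ} (hp : 1 ≤ p) (f : R4 → ℝ) (w : R4) :
    DfB_g p f w ≤ ENNReal.ofReal (4 ^ (p - 1)) * ∑ a, ‖pd a f w‖ₑ ^ p := by
  unfold DfB_g
  have := ENNReal.rpow_sum_le_const_mul_sum_rpow (Finset.univ : Finset (Fin 4))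
    (fun b => ‖pd b f w‖ₑ) hp
  refine this.trans (le_of_eq ?_)
  congr 1
  rw [Finset.card_univ, Fintype.card_fin, ← ENNReal.ofReal_rpow_of_nonneg (by norm_num) (by linarith)]
  congr 1
  simp

theorem DfB_other : ∀ a b : Fin 4, ∃ c : Fin 4, c ≠ a ∧ c ≠ b := by
  decide

theorem sphere_osc {p : ℝ} (hp : 3 < p) : ∃ C : ℝ, 0 ≤ C ∧ ∀ (f : R4 → ℝ) (z : R4) (r : ℝ),
    ContDiff ℝ 1 f → 0 < r → ∃ t, r ≤ t ∧ t ≤ 2 * r ∧
      ∀ x ∈ Metric.sphere z t, ∀ y ∈ Metric.sphere z t,
        ENNReal.ofReal (|f x - f y| ^ p) ≤ ENNReal.ofReal (C * r ^ (p - 4)) *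
          ∑ a, ∫⁻ w in Metric.closedBall z (2 * r), ‖pd a f w‖ₑ ^ p := by
  obtain ⟨C, hC0, hC⟩ := morrey3 hp
  refine ⟨3 ^ p * (C * 2 ^ (p - 3)) * 8 * 4 ^ (p - 1), by positivity, ?_⟩
  intro f z r hf hr
  obtain ⟨t, ht, hS⟩ := DfB_exists p hf z hr
  have ht0 : 0 < t := hr.trans_le ht.1
  refine ⟨t, ht.1, ht.2, ?_⟩
  set I := ∫⁻ w in Metric.closedBall z (2 * r), DfB_g p f w with hI
  have hP : ∀ a s, s = z a + t ∨ s = z a - t → DfB_P p f z (2 * r) a s ≤ 8 * I / ENNReal.ofReal r := by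
    intro a s hs
    refine le_trans ?_ hS
    unfold DfB_S
    refine le_trans ?_ (Finset.single_le_sum (fun _ _ => zero_le) (Finset.mem_univ a))
    rcases hs with h | h
    · rw [h]
      exact le_self_add
    · rw [h]
      exact le_add_self
  set M := ENNReal.ofReal (C * (2 * r) ^ (p - 3)) * (8 * I / ENNReal.ofReal r) with hM
  have hF : ∀ a (x y : R4), x ∈ Metric.closedBall z t → y ∈ Metric.closedBall z t → x a = y a →
      (x a = z a + t ∨ x a = z a - t) → ENNReal.ofReal (|f x - f y| ^ p) ≤ M := by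
    intro a x y hx hy hxy hs
    refine (DfB_face hp hC hC0 hf ht0 ht.2 a hx hy hxy).trans ?_
    exact mul_le_mul_right (hP a _ hs) _
  have hfin : ENNReal.ofReal (3 ^ p) * M ≤
      ENNReal.ofReal (3 ^ p * (C * 2 ^ (p - 3)) * 8 * 4 ^ (p - 1) * r ^ (p - 4)) *
          ∑ a, ∫⁻ w in Metric.closedBall z (2 * r), ‖pd a f w‖ₑ ^ p := by
    have hI2 : I ≤ ENNReal.ofReal (4 ^ (p - 1)) *
        ∑ a, ∫⁻ w in Metric.closedBall z (2 * r), ‖pd a f w‖ₑ ^ p := by
      have hpm : ∀ b, Measurable fun w => ‖pd b f w‖ₑ ^ p := by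
        intro b
        have : Continuous (pd b f) :=
          (hf.continuous_fderiv (by simp)).clm_apply continuous_const
        exact this.measurable.enorm.pow_const p
      rw [← lintegral_finsetSum _ fun b _ => hpm b, ← lintegral_const_mul]
      · exact lintegral_mono fun w => DfB_conv (by linarith) f w
      · exact Finset.measurable_fun_sum _ fun b _ => hpm b
    set T := ∑ a, ∫⁻ w in Metric.closedBall z (2 * r), ‖pd a f w‖ₑ ^ p
    rw [hM]
    have h2 : 8 * I / ENNReal.ofReal r = ENNReal.ofReal (8 / r) * I := by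
      rw [ENNReal.div_eq_inv_mul, ← mul_assoc, mul_comm _ (8 : ℝ≥0∞), ← div_eq_mul_inv,
        ENNReal.ofReal_div_of_pos hr]
      simp
    rw [h2]
    calc ENNReal.ofReal (3 ^ p) * (ENNReal.ofReal (C * (2 * r) ^ (p - 3)) *
          (ENNReal.ofReal (8 / r) * I))
        ≤ ENNReal.ofReal (3 ^ p) * (ENNReal.ofReal (C * (2 * r) ^ (p - 3)) *
          (ENNReal.ofReal (8 / r) * (ENNReal.ofReal (4 ^ (p - 1)) * T))) := by gcongr
      _ = ENNReal.ofReal (3 ^ p * (C * 2 ^ (p - 3)) * 8 * 4 ^ (p - 1) * r ^ (p - 4)) * T := by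
          rw [← mul_assoc, ← mul_assoc, ← mul_assoc, ← ENNReal.ofReal_mul (by positivity),
            ← ENNReal.ofReal_mul (by positivity), ← ENNReal.ofReal_mul (by positivity)]
          congr 2
          rw [Real.mul_rpow (by norm_num) hr.le,
            show r ^ (p - 3) = r ^ (p - 4) * r from by
              rw [← Real.rpow_add_one hr.ne']; congr 1; ring]
          field_simp
  intro x hx y hy
  refine le_trans ?_ hfin
  obtain ⟨a, ha⟩ := DfB_coord ht0 hx
  obtain ⟨b, hb⟩ := DfB_coord ht0 hy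
  obtain ⟨c, hca, hcb⟩ := DfB_other a b
  have hq1 : DfB_q z t a c (x a) ∈ Metric.closedBall z t := DfB_q_mem ht0 a c ha
  have hq2 : DfB_q z t b c (y b) ∈ Metric.closedBall z t := DfB_q_mem ht0 b c hb
  have e1 : DfB_q z t a c (x a) a = x a := by simp [DfB_q]
  have e2 : DfB_q z t b c (y b) b = y b := by simp [DfB_q]
  have e3 : DfB_q z t a c (x a) c = z c + t := by simp [DfB_q, hca]
  have e4 : DfB_q z t b c (y b) c = z c + t := by simp [DfB_q, hcb]
  have k1 := hF a x (DfB_q z t a c (x a)) (Metric.sphere_subset_closedBall hx) hq1 e1.symm ha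
  have k2 := hF c (DfB_q z t a c (x a)) (DfB_q z t b c (y b)) hq1 hq2 (by rw [e3, e4])
    (Or.inl e3)
  have k3 := hF b (DfB_q z t b c (y b)) y hq2 (Metric.sphere_subset_closedBall hy) e2
    (by rw [e2]; exact hb)
  have := DfB_three (by linarith : (0 : ℝ) < p) k1 k2 k3
  have e5 : f x - f (DfB_q z t a c (x a)) + (f (DfB_q z t a c (x a)) - f (DfB_q z t b c (y b))) +
      (f (DfB_q z t b c (y b)) - f y) = f x - f y := by ring
  rw [e5] at this
  exact this

end Pool.Agent.SYC
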