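import Pool.Agent.SYC.DfB
import Pool.Agent.SYH.Apx

/-!
# SYC/DfC: oscillation of the components of Sobolev homeomorphisms

`max_bd`: `Q = closedBall z t ⊆ e.source`, `y ∈ Q`.  The function `w ↦ w b` attains its maximum over the compact set `e '' Q` at some `e q`; if `q ∈ ball z t` then `e '' ball z t` is open
(`OpenPartialHomeomorph`), contains `e q` and so points with a larger `b`-coordinate: a contradiction; so `q ∈ sphere z t`.  In the same way for the minimum.
`osc_le`: `u = e · b`, `g = G · b`; `apx` (`q = p`, `K = closedBall z (2 r)`): smooth `v_n → u` uniformly on `K`, `pd a v_n → g a` in `L^p(K)`.  `sphere_osc` for `v_n`: `t_n ∈ [r, 2 r]`.  For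
`x, y ∈ closedBall z r ⊆ closedBall z t_n`: `|u x - u y| ≤ osc_{sphere z t_n} u` (`max_bd`) `≤ osc_{sphere z t_n} v_n + 2 sup |u - v_n|`.  Let `n → ∞`.
-/

open MeasureTheory Set Filter Topology
open scoped ContDiff Matrix ENNReal

namespace Pool.Agent.SYC

open Pool.Agent.SYH

theorem DfC_ex {e : OpenPartialHomeomorph R4 R4} {z : R4} {t : ℝ} (ht : 0 < t)
    (hs : Metric.closedBall z t ⊆ e.source) (b : Fin 4) {σ : ℝ} (hσ : σ ≠ 0) :
    ∃ q ∈ Metric.sphere z t, ∀ y ∈ Metric.closedBall z t, σ * e y b ≤ σ * e q b := by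
  have hc : ContinuousOn (fun w => σ * e w b) (Metric.closedBall z t) := by
    refine continuousOn_const.mul ?_
    exact (continuous_apply b).comp_continuousOn (e.continuousOn.mono hs)
  obtain ⟨q, hq, hmax⟩ := (isCompact_closedBall z t).exists_isMaxOn
    (Metric.nonempty_closedBall.2 ht.le) hc
  refine ⟨q, ?_, fun y hy => hmax hy⟩
  by_contra hns
  have hqb : q ∈ Metric.ball z t := by
    rw [Metric.mem_ball]
    exact lt_of_le_of_ne hq hns
  have hopen : IsOpen (e '' Metric.ball z t) :=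
    e.isOpen_image_of_subset_source Metric.isOpen_ball (Metric.ball_subset_closedBall.trans hs)
  have hcont : Continuous (fun s : ℝ => e q + s • (Pi.single b σ : R4)) := by fun_prop
  have hev : ∀ᶠ s in 𝓝 (0 : ℝ), e q + s • (Pi.single b σ : R4) ∈ e '' Metric.ball z t := by
    refine hcont.continuousAt.eventually_mem ?_
    refine hopen.mem_nhds ?_
    simp only [zero_smul, add_zero]
    exact mem_image_of_mem _ hqb
  have hev2 : ∀ᶠ s in 𝓝[>] (0 : ℝ), e q + s • (Pi.single b σ : R4) ∈ e '' Metric.ball z t :=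
    nhdsWithin_le_nhds hev
  obtain ⟨s, ⟨w, hw, hws⟩, hspos⟩ := (hev2.and self_mem_nhdsWithin).exists
  have hspos' : 0 < s := hspos
  have h1 : σ * e w b ≤ σ * e q b := hmax (Metric.ball_subset_closedBall hw)
  rw [hws] at h1
  have h2 : (e q + s • (Pi.single b σ : R4)) b = e q b + s * σ := by
    simp
  rw [h2] at h1
  have h3 : 0 < s * (σ * σ) := mul_pos hspos' (mul_self_pos.2 hσ)
  nlinarith

theorem max_bd {e : OpenPartialHomeomorph R4 R4} {z : R4} {t : ℝ} (ht : 0 < t)
    (hs : Metric.closedBall z t ⊆ e.source) (b : Fin 4) {y : R4} (hy : y ∈ Metric.closedBall z t) :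
    ∃ q ∈ Metric.sphere z t, ∃ q' ∈ Metric.sphere z t, e q' b ≤ e y b ∧ e y b ≤ e q b := by
  obtain ⟨q, hq, h⟩ := DfC_ex ht hs b (σ := 1) one_ne_zero
  obtain ⟨q', hq', h'⟩ := DfC_ex ht hs b (σ := -1) (by norm_num)
  refine ⟨q, hq, q', hq', ?_, ?_⟩
  · have := h' y hy
    linarith
  · have := h y hy
    linarith

theorem DfC_osc {e : OpenPartialHomeomorph R4 R4} {z : R4} {t : ℝ} (ht : 0 < t)
    (hs : Metric.closedBall z t ⊆ e.source) (b : Fin 4) {x y : R4} (hx : x ∈ Metric.closedBall z t)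
    (hy : y ∈ Metric.closedBall z t) :
    ∃ q ∈ Metric.sphere z t, ∃ q' ∈ Metric.sphere z t, |e x b - e y b| ≤ |e q b - e q' b| := by
  obtain ⟨q1, h1, q1', h1', a1, b1⟩ := max_bd ht hs b hx
  obtain ⟨q2, h2, q2', h2', a2, b2⟩ := max_bd ht hs b hy
  rcases le_total (e x b) (e y b) with h | h
  · refine ⟨q2, h2, q1', h1', ?_⟩
    rw [abs_of_nonpos (by linarith), abs_of_nonneg (by linarith)]
    linarith
  · refine ⟨q1, h1, q2', h2', ?_⟩
    rw [abs_of_nonneg (by linarith), abs_of_nonneg (by linarith)]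
    linarith

theorem DfC_pow {p : ℝ} (hp : 0 < p) (f : R4 → ℝ) (μ : Measure R4) :
    (eLpNorm f (ENNReal.ofReal p) μ) ^ p = ∫⁻ w, ‖f w‖ₑ ^ p ∂μ := by
  rw [eLpNorm_eq_lintegral_rpow_enorm_toReal (by simpa using hp) ENNReal.ofReal_ne_top,
    ENNReal.toReal_ofReal hp.le, ← ENNReal.rpow_mul, one_div_mul_cancel hp.ne', ENNReal.rpow_one]

theorem osc_le {p : ℝ} (hp : 3 < p) : ∃ C : ℝ, 0 ≤ C ∧ ∀ (e : OpenPartialHomeomorph R4 R4)
    (G : R4 → Matrix (Fin 4) (Fin 4) ℝ), IsWD (ENNReal.ofReal p) e.source e G →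
    ∀ (b : Fin 4) (z : R4) (r : ℝ), 0 < r → Metric.closedBall z (2 * r) ⊆ e.source →
    ∀ x ∈ Metric.closedBall z r, ∀ y ∈ Metric.closedBall z r,
      ENNReal.ofReal (|e x b - e y b| ^ p) ≤ ENNReal.ofReal (C * r ^ (p - 4)) *
        ∑ a, ∫⁻ w in Metric.closedBall z (2 * r), ‖G w b a‖ₑ ^ p := by
  obtain ⟨C, hC0, hC⟩ := sphere_osc hp
  refine ⟨C, hC0, ?_⟩
  intro e G hG b z r hr hs x hx y hy
  have hp0 : 0 < p := by linarith
  have hq1 : (1 : ℝ≥0∞) ≤ ENNReal.ofReal p := by
    rw [← ENNReal.ofReal_one]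
    exact ENNReal.ofReal_le_ofReal (by linarith)
  set K := Metric.closedBall z (2 * r) with hK
  have hKc : IsCompact K := isCompact_closedBall _ _
  set N : Fin 4 → ℝ≥0∞ := fun a =>
    eLpNorm (fun w => G w b a) (ENNReal.ofReal p) (volume.restrict K) with hN
  have hpos : ∀ x : ℝ, ENNReal.ofReal (|x| ^ p) = ENNReal.ofReal |x| ^ p := by
    intro x
    rw [ENNReal.ofReal_rpow_of_nonneg (abs_nonneg _) hp0.le]
  have key : ∀ ε : ℝ, 0 < ε → ENNReal.ofReal |e x b - e y b| ≤
      (ENNReal.ofReal (C * r ^ (p - 4)) * ∑ a, (N a + ENNReal.ofReal ε) ^ p) ^ (1 / p) +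
        ENNReal.ofReal (2 * ε) := by
    intro ε hε
    obtain ⟨v, hv, hv1, hv2⟩ := apx e.open_source hKc hs hq1 ENNReal.ofReal_ne_top
      (u := fun x => e x b) (g := fun x => G x b)
      ((continuous_apply b).comp_continuousOn e.continuousOn) (hG.lp b) (hG.wg b) hε
    obtain ⟨t, ht1, ht2, ht⟩ := hC v z r (hv.of_le (by exact_mod_cast le_top)) hr
    have ht0 : 0 < t := hr.trans_le ht1
    have htK : Metric.closedBall z t ⊆ K := Metric.closedBall_subset_closedBall ht2
    obtain ⟨q, hq, q', hq', hqq⟩ := DfC_osc ht0 (htK.trans hs) b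
      (Metric.closedBall_subset_closedBall ht1 hx) (Metric.closedBall_subset_closedBall ht1 hy)
    have h1 : |v q - e q b| ≤ ε := hv1 q (htK (Metric.sphere_subset_closedBall hq))
    have h2 : |v q' - e q' b| ≤ ε := hv1 q' (htK (Metric.sphere_subset_closedBall hq'))
    have h3 : |e x b - e y b| ≤ |v q - v q'| + 2 * ε := by
      refine hqq.trans ?_
      have e1 : e q b - e q' b = (v q - v q') + (-(v q - e q b) + (v q' - e q' b)) := by ring
      rw [e1]
      refine (abs_add_le _ _).trans ?_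
      have : |-(v q - e q b) + (v q' - e q' b)| ≤ 2 * ε := by
        refine (abs_add_le _ _).trans ?_
        rw [abs_neg]
        linarith
      linarith
    have h4 : ENNReal.ofReal |e x b - e y b| ≤ ENNReal.ofReal |v q - v q'| +
        ENNReal.ofReal (2 * ε) := by
      rw [← ENNReal.ofReal_add (abs_nonneg _) (by linarith)]
      exact ENNReal.ofReal_le_ofReal h3
    refine h4.trans ?_
    refine add_le_add ?_ le_rfl
    have h5 := ht q hq q' hq'
    rw [hpos] at h5
    rw [one_div, ENNReal.le_rpow_inv_iff hp0]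
    refine h5.trans ?_
    refine mul_le_mul' le_rfl ?_
    refine Finset.sum_le_sum fun a _ => ?_
    rw [← DfC_pow hp0]
    refine ENNReal.rpow_le_rpow ?_ hp0.le
    have hpd : Continuous (pd a v) :=
      (hv.continuous_fderiv (by simp)).clm_apply continuous_const
    have hGm : AEStronglyMeasurable (fun w => G w b a) (volume.restrict K) :=
      (hG.lp b a K hs hKc).aestronglyMeasurable
    have e2 : (fun w => pd a v w) = (fun w => G w b a) + fun w => pd a v w - G w b a := by
      funext w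
      simp
    have h6 : eLpNorm (fun w => pd a v w) (ENNReal.ofReal p) (volume.restrict K) ≤
        N a + eLpNorm (fun w => pd a v w - G w b a) (ENNReal.ofReal p) (volume.restrict K) := by
      conv_lhs => rw [e2]
      exact eLpNorm_add_le hGm (hpd.aestronglyMeasurable.sub hGm) hq1
    exact h6.trans (add_le_add le_rfl (hv2 a))
  have hlim : Tendsto (fun ε : ℝ =>
      (ENNReal.ofReal (C * r ^ (p - 4)) * ∑ a, (N a + ENNReal.ofReal ε) ^ p) ^ (1 / p) +
        ENNReal.ofReal (2 * ε)) (𝓝[>] 0)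
      (𝓝 ((ENNReal.ofReal (C * r ^ (p - 4)) * ∑ a, (N a + ENNReal.ofReal 0) ^ p) ^ (1 / p) +
        ENNReal.ofReal (2 * 0))) := by
    refine Tendsto.mono_left (Continuous.tendsto ?_ 0) nhdsWithin_le_nhds
    refine Continuous.add ?_ ?_
    · refine ENNReal.continuous_rpow_const.comp ?_
      refine (ENNReal.continuous_const_mul ENNReal.ofReal_ne_top).comp ?_
      refine continuous_finsetSum _ fun a _ => ?_
      refine ENNReal.continuous_rpow_const.comp ?_
      exact continuous_const.add ENNReal.continuous_ofReal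
    · exact ENNReal.continuous_ofReal.comp (continuous_const.mul continuous_id)
  have hfin := ge_of_tendsto hlim (by
    filter_upwards [self_mem_nhdsWithin] with ε hε
    exact key ε hε)
  rw [mul_zero, ENNReal.ofReal_zero, add_zero] at hfin
  rw [hpos]
  rw [one_div, ENNReal.le_rpow_inv_iff hp0] at hfin
  refine hfin.trans (le_of_eq ?_)
  congr 1
  refine Finset.sum_congr rfl fun a _ => ?_
  rw [add_zero, hN]
  exact DfC_pow hp0 _ _

end Pool.Agent.SYC
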