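import Mathlib

/-!
# SYC/DfD: Stepanov's theorem

`E_k = {x | |u y - u x| ≤ k ‖y - x‖ for y ∈ ball x (1/(k+1))}`, `k = 0, 1, 2, ..`; a.e. point of `Ω` is in `⋃ E_k`.
Cut `E_k` into countably many pieces `P` of diameter `< 1/(k+1)`: `u` is `k`-Lipschitz on `P`; let `v` be a Lipschitz extension
(`LipschitzOnWith.extend_real`), differentiable almost everywhere (Rademacher: `LipschitzWith.ae_differentiableAt`).
Let `x ∈ P` be a density point of `P` (`Besicovitch.ae_tendsto_measure_inter_div`, for arbitrary sets) where `v` is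
differentiable: for `y` near `x` there is `y' ∈ P` with `‖y - y'‖ ≤ ε ‖y - x‖` (otherwise
the ball around `y` of this radius is free of `P`, against density), and `|u y - u y'| ≤ k ‖y - y'‖` (`y' ∈ E_k`),
`|v y - v y'| ≤ k ‖y - y'‖`, `u y' = v y'`; so
`|u y - u x - v'(x)(y - x)| ≤ |v y - v x - v'(x)(y - x)| + 2 k ε ‖y - x‖`.
-/

open MeasureTheory Set Filter Topology
open scoped ENNReal

namespace Pool.Agent.SYC

namespace DfD

/-- density points are limits in all directions -/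
lemma density {P : Set (Fin 4 → ℝ)} {x : Fin 4 → ℝ} (hx : x ∈ P)
    (h : Tendsto (fun r => volume (P ∩ Metric.closedBall x r) / volume (Metric.closedBall x r))
      (𝓝[>] 0) (𝓝 1)) {δ : ℝ} (hδ : 0 < δ) (hδ1 : δ ≤ 1) :
    ∀ᶠ y in 𝓝 x, ∃ y' ∈ P, ‖y - y'‖ ≤ δ * ‖y - x‖ := by
  have hc : ENNReal.ofReal (1 - (δ / 2) ^ 4) < 1 := by
    rw [← ENNReal.ofReal_one]
    apply (ENNReal.ofReal_lt_ofReal_iff one_pos).mpr
    have : 0 < (δ / 2) ^ 4 := by positivity
    linarith
  have h1 := h.eventually (lt_mem_nhds hc)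
  rw [eventually_nhdsWithin_iff, Metric.eventually_nhds_iff] at h1
  obtain ⟨η, hη, h1⟩ := h1
  refine Metric.eventually_nhds_iff.mpr ⟨η / 2, by linarith, fun y hy => ?_⟩
  by_cases hyx : y = x
  · subst hyx
    exact ⟨y, hx, by simp⟩
  by_contra hcon
  push Not at hcon
  have hd : 0 < ‖y - x‖ := norm_pos_iff.mpr (sub_ne_zero.mpr hyx)
  have hd2 : ‖y - x‖ < η / 2 := by rwa [← dist_eq_norm]
  set t := ‖y - x‖ with ht
  have h2 := @h1 (2 * t) (by
    rw [Real.dist_eq, sub_zero, abs_of_pos (by linarith)]; linarith) (by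
    show (0 : ℝ) < 2 * t
    linarith)
  have hsub : P ∩ Metric.closedBall x (2 * t) ⊆
      Metric.closedBall x (2 * t) \ Metric.closedBall y (δ * t) := by
    rintro w ⟨hw1, hw2⟩
    refine ⟨hw2, fun hw3 => ?_⟩
    have := hcon w hw1
    rw [Metric.mem_closedBall, dist_comm, dist_eq_norm] at hw3
    linarith
  have hsub2 : Metric.closedBall y (δ * t) ⊆ Metric.closedBall x (2 * t) := by
    apply Metric.closedBall_subset_closedBall'
    rw [dist_eq_norm, ← ht]
    nlinarith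
  have hv1 : volume (Metric.closedBall x (2 * t)) = ENNReal.ofReal ((2 * (2 * t)) ^ 4) := by
    rw [Real.volume_pi_closedBall x (by linarith)]
    simp
  have hv2 : volume (Metric.closedBall y (δ * t)) = ENNReal.ofReal ((2 * (δ * t)) ^ 4) := by
    rw [Real.volume_pi_closedBall y (by positivity)]
    simp
  have h3 : volume (P ∩ Metric.closedBall x (2 * t)) ≤
      ENNReal.ofReal (1 - (δ / 2) ^ 4) * volume (Metric.closedBall x (2 * t)) := by
    refine (measure_mono hsub).trans ?_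
    rw [measure_sdiff hsub2 Metric.isClosed_closedBall.measurableSet.nullMeasurableSet
      (by rw [hv2]; exact ENNReal.ofReal_ne_top), hv1, hv2,
      ← ENNReal.ofReal_sub _ (by positivity), ← ENNReal.ofReal_mul]
    · apply ENNReal.ofReal_le_ofReal
      apply le_of_eq
      ring
    · have : (δ / 2) ^ 4 ≤ 1 := pow_le_one₀ (by positivity) (by linarith)
      linarith
  have hV0 : volume (Metric.closedBall x (2 * t)) ≠ 0 := by
    rw [hv1]
    have : 0 < (2 * (2 * t)) ^ 4 := by positivity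
    simpa using this
  have hVt : volume (Metric.closedBall x (2 * t)) ≠ ⊤ := by rw [hv1]; exact ENNReal.ofReal_ne_top
  have h4 := ENNReal.div_le_of_le_mul h3
  exact absurd h2 (not_lt.mpr h4)

lemma piece {u : (Fin 4 → ℝ) → ℝ} (k : ℕ) {P : Set (Fin 4 → ℝ)}
    (h1 : ∀ x ∈ P, ∀ y ∈ Metric.ball x (1 / ((k : ℝ) + 1)), |u y - u x| ≤ k * ‖y - x‖)
    (h2 : ∀ x ∈ P, ∀ y ∈ P, dist y x < 1 / ((k : ℝ) + 1)) :
    ∀ᵐ x, x ∈ P → DifferentiableAt ℝ u x := by
  have hL : LipschitzOnWith (k : NNReal) u P := by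
    apply LipschitzOnWith.of_dist_le_mul
    intro x hx y hy
    rw [Real.dist_eq, dist_eq_norm]
    have := h1 y hy x (Metric.mem_ball.mpr (h2 y hy x hx))
    simpa using this
  obtain ⟨v, hv, hvu⟩ := hL.extend_real
  have h3 := ae_imp_of_ae_restrict (Besicovitch.ae_tendsto_measure_inter_div
    (volume : Measure (Fin 4 → ℝ)) P)
  filter_upwards [h3, hv.ae_differentiableAt (μ := volume)] with x hx1 hx2 hxP
  have hdens := hx1 hxP
  have hder := hx2.hasFDerivAt
  set L := fderiv ℝ v x with hLd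
  have : HasFDerivAt u L x := by
    rw [hasFDerivAt_iff_isLittleO, Asymptotics.isLittleO_iff]
    intro c hc
    rw [hasFDerivAt_iff_isLittleO, Asymptotics.isLittleO_iff] at hder
    have hk : 0 ≤ (k : ℝ) := Nat.cast_nonneg k
    set δ : ℝ := min 1 (c / (2 * k + 1)) with hδ
    have hδ0 : 0 < δ := lt_min one_pos (by positivity)
    have hδ1 : δ ≤ 1 := min_le_left _ _
    have hδc : (2 * k + 1) * δ ≤ c := by
      have h5 : δ ≤ c / (2 * k + 1) := min_le_right _ _
      rw [le_div_iff₀ (by positivity)] at h5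
      linarith
    have hnear : ∀ᶠ y in 𝓝 x, dist y x < 1 / ((k : ℝ) + 1) :=
      Metric.eventually_nhds_iff.mpr ⟨1 / ((k : ℝ) + 1), by positivity, fun y hy => hy⟩
    filter_upwards [density hxP hdens hδ0 hδ1, hder hδ0, hnear] with y hy1 hy2 hy3
    obtain ⟨y', hy'P, hy'⟩ := hy1
    have hyy : ‖y - y'‖ < 1 / ((k : ℝ) + 1) := by
      rw [dist_eq_norm] at hy3
      have : δ * ‖y - x‖ ≤ ‖y - x‖ := mul_le_of_le_one_left (norm_nonneg _) hδ1
      linarith
    have e1 : |u y - u y'| ≤ k * ‖y - y'‖ := h1 y' hy'P y (by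
      rw [Metric.mem_ball, dist_eq_norm]; exact hyy)
    have e2 : |v y' - v y| ≤ k * ‖y - y'‖ := by
      have := hv.dist_le_mul y' y
      rw [Real.dist_eq, dist_comm, dist_eq_norm] at this
      simpa using this
    have e3 : u y' = v y' := hvu hy'P
    have e4 : u x = v x := hvu hxP
    rw [Real.norm_eq_abs] at hy2 ⊢
    have e5 : u y - u x - L (y - x) = (u y - u y') + (v y' - v y) + (v y - v x - L (y - x)) := by
      rw [e3, e4]; ring
    rw [e5]
    have e6 := abs_add_three (u y - u y') (v y' - v y) (v y - v x - L (y - x))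
    have e7 : (k : ℝ) * ‖y - y'‖ ≤ k * (δ * ‖y - x‖) := mul_le_mul_of_nonneg_left hy' hk
    have e8 : (2 * k + 1) * δ * ‖y - x‖ ≤ c * ‖y - x‖ :=
      mul_le_mul_of_nonneg_right hδc (norm_nonneg _)
    nlinarith
  exact this.differentiableAt

end DfD

theorem stepanov {Ω : Set (Fin 4 → ℝ)} (hΩ : IsOpen Ω) {u : (Fin 4 → ℝ) → ℝ}
    (hu : ContinuousOn u Ω)
    (h : ∀ᵐ x, x ∈ Ω → ∃ C : ℝ, ∀ᶠ y in 𝓝 x, |u y - u x| ≤ C * ‖y - x‖) :
    ∀ᵐ x, x ∈ Ω → DifferentiableAt ℝ u x := by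
  set P : ℕ → ℕ → Set (Fin 4 → ℝ) := fun k n =>
    {x | (∀ y ∈ Metric.ball x (1 / ((k : ℝ) + 1)), |u y - u x| ≤ k * ‖y - x‖) ∧
      dist x (TopologicalSpace.denseSeq (Fin 4 → ℝ) n) < 1 / (2 * ((k : ℝ) + 1))} with hP
  have hpiece : ∀ k n, ∀ᵐ x, x ∈ P k n → DifferentiableAt ℝ u x := by
    intro k n
    refine DfD.piece k (fun x hx => hx.1) ?_
    intro x hx y hy
    have h1 := hx.2
    have h2 := hy.2
    have h3 := dist_triangle_right y x (TopologicalSpace.denseSeq (Fin 4 → ℝ) n)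
    have h4 : 1 / (2 * ((k : ℝ) + 1)) + 1 / (2 * ((k : ℝ) + 1)) = 1 / ((k : ℝ) + 1) := by
      field_simp
      norm_num
    linarith
  have hall : ∀ᵐ x, ∀ k n, x ∈ P k n → DifferentiableAt ℝ u x := by
    rw [ae_all_iff]
    intro k
    rw [ae_all_iff]
    exact hpiece k
  filter_upwards [h, hall] with x hx1 hx2 hxΩ
  obtain ⟨C, hC⟩ := hx1 hxΩ
  obtain ⟨η, hη, hC⟩ := Metric.eventually_nhds_iff.mp hC
  obtain ⟨k, hk⟩ := exists_nat_gt (max C (1 / η))
  have hk1 : C ≤ k := (le_max_left _ _).trans hk.le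
  have hk2 : 1 / η < k := lt_of_le_of_lt (le_max_right _ _) hk
  have hk3 : 1 / ((k : ℝ) + 1) < η := by
    rw [div_lt_iff₀ (by positivity)]
    rw [div_lt_iff₀ hη] at hk2
    nlinarith
  obtain ⟨n, hn⟩ := (TopologicalSpace.denseRange_denseSeq (Fin 4 → ℝ)).exists_dist_lt x
    (show 0 < 1 / (2 * ((k : ℝ) + 1)) by positivity)
  refine hx2 k n ⟨fun y hy => ?_, hn⟩
  refine (hC (lt_trans (Metric.mem_ball.mp hy) hk3)).trans ?_
  exact mul_le_mul_of_nonneg_right hk1 (norm_nonneg _)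

end Pool.Agent.SYC
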