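import Pool.Agent.SYD.LDd
import Pool.Agent.SYC.Defs

/-!
# SYC/DfE: the derivative is the weak derivative

Let `K ⊆ Ω` be compact (countably many `K` exhaust `Ω`), `ε > 0`; `F` from `diffOn`: `HasFDerivWithinAt u (lin (g x)) F x` for `x ∈ F`.  At a density point `x` of `F` where `u` is differentiable:
`HasFDerivWithinAt u (fderiv ℝ u x) F x`, and `UniqueDiffWithinAt ℝ F x` (for every `v` and small `t > 0` there is `y_t ∈ F` with `‖y_t - (x + t v)‖ ≤ o(t)` by density, so `v` is in the tangent cone);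
`UniqueDiffWithinAt.eq`: `fderiv ℝ u x = lin (g x)`.  The remaining points of `K` have measure `≤ ε`.
-/

open MeasureTheory Set Filter Topology
open scoped ContDiff Matrix ENNReal

namespace Pool.Agent.SYC

open Pool.Agent.SYH Pool.Agent.SYD

theorem unique_of_density {F : Set R4} (hF : MeasurableSet F) :
    ∀ᵐ x, x ∈ F → UniqueDiffWithinAt ℝ F x := by
  filter_upwards [Besicovitch.ae_tendsto_measure_inter_div_of_measurableSet volume hF] with x hx hxF
  rw [indicator_of_mem hxF, Pi.one_apply] at hx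
  have key : ∀ v : R4, v ∈ tangentConeAt ℝ F x := by
    intro v
    have h1 : ∀ n : ℕ, ∃ r : ℝ, 0 < r ∧ r < 1 / ((n : ℝ) + 1) ∧
        ∃ w : R4, dist w v < 1 / ((n : ℝ) + 1) ∧ x + r • w ∈ F := by
      intro n
      have hn : (0 : ℝ) < 1 / ((n : ℝ) + 1) := by positivity
      have h2 := MeasureTheory.Measure.eventually_nonempty_inter_smul_of_density_one volume F x hx
        (Metric.ball v (1 / ((n : ℝ) + 1))) measurableSet_ball (Metric.measure_ball_pos volume v hn).ne'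
      have h3 : ∀ᶠ r in 𝓝[>] (0 : ℝ), r < 1 / ((n : ℝ) + 1) :=
        mem_nhdsWithin_of_mem_nhds (Iio_mem_nhds hn)
      have h4 : ∀ᶠ r in 𝓝[>] (0 : ℝ), 0 < r := self_mem_nhdsWithin
      obtain ⟨r, ⟨hr1, hr2⟩, hr3⟩ := ((h2.and h3).and h4).exists
      obtain ⟨y, hyF, hy⟩ := hr1
      rw [singleton_add] at hy
      obtain ⟨z, hz, rfl⟩ := hy
      obtain ⟨w, hw, rfl⟩ := mem_smul_set.1 hz
      exact ⟨r, hr3, hr2, w, hw, hyF⟩
    choose r hr0 hr1 w hw hwF using h1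
    have l0 : Tendsto (fun n : ℕ => 1 / ((n : ℝ) + 1)) atTop (𝓝 0) := tendsto_one_div_add_atTop_nhds_zero_nat
    have lw : Tendsto w atTop (𝓝 v) := by
      rw [tendsto_iff_dist_tendsto_zero]
      exact squeeze_zero (fun n => dist_nonneg) (fun n => (hw n).le) l0
    have lr : Tendsto r atTop (𝓝 0) := squeeze_zero (fun n => (hr0 n).le) (fun n => (hr1 n).le) l0
    refine mem_tangentConeAt_of_seq atTop (fun n => (r n)⁻¹) (fun n => r n • w n) ?_ ?_ ?_
    · simpa using lr.smul lw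
    · exact Eventually.of_forall hwF
    · refine lw.congr fun n => ?_
      rw [inv_smul_smul₀ (hr0 n).ne']
  refine ⟨?_, subset_closure hxF⟩
  have e : tangentConeAt ℝ F x = univ := eq_univ_of_forall key
  rw [e, Submodule.span_univ]
  exact dense_univ

private theorem DfE_cpt {Ω : Set R4} (hΩ : IsOpen Ω) {u : R4 → ℝ} {g : R4 → R4}
    (hu : ContinuousOn u Ω) (hg : ∀ a, LpL 1 Ω (fun x => g x a)) (h : WG Ω u g)
    (hd : ∀ᵐ x, x ∈ Ω → DifferentiableAt ℝ u x) {K : Set R4} (hK : IsCompact K) (hs : K ⊆ Ω) :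
    volume {x | x ∈ K ∧ ¬ HasFDerivAt u (lin (g x)) x} = 0 := by
  refine nonpos_iff_eq_zero.1 (le_of_forall_pos_le_add fun ε hε => ?_)
  rw [zero_add]
  obtain ⟨F, hFK, hFm, hFv, hF⟩ := diffOn hΩ hK hs hu hg h hε.ne'
  have hn : volume {x | ¬ (x ∈ F → HasFDerivAt u (lin (g x)) x)} = 0 := by
    rw [← ae_iff]
    filter_upwards [unique_of_density hFm, hd] with x h1 h2 hx
    have h3 := h2 (hs (hFK hx))
    have h4 := (h1 hx).eq (h3.hasFDerivAt.hasFDerivWithinAt (s := F)) (hF x hx)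
    rw [← h4]
    exact h3.hasFDerivAt
  have hsub : {x | x ∈ K ∧ ¬ HasFDerivAt u (lin (g x)) x}
      ⊆ (K \ F) ∪ {x | ¬ (x ∈ F → HasFDerivAt u (lin (g x)) x)} := by
    rintro x ⟨hxK, hx⟩
    by_cases hxF : x ∈ F
    · exact Or.inr fun h => hx (h hxF)
    · exact Or.inl ⟨hxK, hxF⟩
  calc volume {x | x ∈ K ∧ ¬ HasFDerivAt u (lin (g x)) x}
      ≤ volume ((K \ F) ∪ {x | ¬ (x ∈ F → HasFDerivAt u (lin (g x)) x)}) := measure_mono hsub
    _ ≤ volume (K \ F) + volume {x | ¬ (x ∈ F → HasFDerivAt u (lin (g x)) x)} :=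
        measure_union_le _ _
    _ ≤ ε := by rw [hn, add_zero]; exact hFv

theorem fderiv_eq_weak {Ω : Set R4} (hΩ : IsOpen Ω) {u : R4 → ℝ} {g : R4 → R4}
    (hu : ContinuousOn u Ω) (hg : ∀ a, LpL 1 Ω (fun x => g x a)) (h : WG Ω u g)
    (hd : ∀ᵐ x, x ∈ Ω → DifferentiableAt ℝ u x) :
    ∀ᵐ x, x ∈ Ω → HasFDerivAt u (lin (g x)) x := by
  rw [ae_iff]
  refine measure_null_of_locally_null _ fun x hx => ?_
  have hxΩ : x ∈ Ω := by
    by_contra hc
    exact hx fun h => absurd h hc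
  obtain ⟨r, hr, hrs⟩ := Metric.nhds_basis_closedBall.mem_iff.1 (hΩ.mem_nhds hxΩ)
  refine ⟨Metric.closedBall x r ∩ {a | ¬ (a ∈ Ω → HasFDerivAt u (lin (g a)) a)},
    inter_mem (mem_nhdsWithin_of_mem_nhds (Metric.closedBall_mem_nhds x hr)) self_mem_nhdsWithin, ?_⟩
  refine measure_mono_null ?_ (DfE_cpt hΩ hu hg h hd (isCompact_closedBall x r) hrs)
  rintro y ⟨hy1, hy2⟩
  exact ⟨hy1, fun hc => hy2 fun _ => hc⟩

end Pool.Agent.SYC
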