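import Pool.Agent.SYC.DfC
import Pool.Agent.SYC.DfD
import Pool.Agent.SYC.DfE

/-!
# SYC/DfF: Sobolev homeomorphisms with `p > 3` are differentiable almost everywhere

`u = e · b`, `g = G · b`.  At a Lebesgue point `x ∈ e.source` of the functions `‖G · b a‖ ^ p` (locally integrable; e.g. `IsUnifLocDoublingMeasure.ae_tendsto_average` / `Besicovitch`):
`r ^ (-4) ∫_{closedBall x (2 r)} ‖G w b a‖ ^ p` stays bounded as `r → 0`; `osc_le` with `z = x`, `r = ‖y - x‖`: `|u y - u x| ^ p ≤ C r ^ p`, so `|u y - u x| ≤ C' ‖y - x‖`.  `stepanov`, `fderiv_eq_weak`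
(`LpL 1` from `LpL p`), for the four components: `hasFDerivAt_pi'` (as in `SYH/SgM.hasFDeriv_pm`: `(proj b).comp (mL (G x)) = lin (G x b)`).
-/

open MeasureTheory Set Filter Topology
open scoped ContDiff Matrix ENNReal

namespace Pool.Agent.SYC

open Pool.Agent.SYH Pool.Agent.SYD

private theorem avg_bd {p : ℝ} (hp : 0 < p) {Ω : Set R4} (hΩ : IsOpen Ω) {g : R4 → ℝ}
    (hg : LpL (ENNReal.ofReal p) Ω g) : ∀ᵐ x, x ∈ Ω → ∃ M : ℝ, 0 ≤ M ∧ ∃ ε : ℝ, 0 < ε ∧
      ∀ r, 0 < r → r < ε → ∫⁻ w in Metric.closedBall x r, ‖g w‖ₑ ^ p ≤ ENNReal.ofReal (M * r ^ 4) := by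
  rw [ae_iff]
  refine measure_null_of_locally_null _ fun x₀ hx₀ => ?_
  simp only [mem_ofPred_eq, not_forall] at hx₀
  obtain ⟨hx₀Ω, -⟩ := hx₀
  obtain ⟨ρ, hρ, hρΩ⟩ := Metric.nhds_basis_closedBall.mem_iff.1 (hΩ.mem_nhds hx₀Ω)
  set K := Metric.closedBall x₀ ρ with hK
  have hKc : IsCompact K := isCompact_closedBall x₀ ρ
  have hfin : ∫⁻ w in K, ‖g w‖ₑ ^ p < ⊤ := by
    have h1 := lintegral_rpow_enorm_lt_top_of_eLpNorm_lt_top
      (by simpa using hp) ENNReal.ofReal_ne_top (hg K hρΩ hKc).2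
    rwa [ENNReal.toReal_ofReal hp.le] at h1
  set ν : Measure R4 := (volume.restrict K).withDensity (fun w => ‖g w‖ₑ ^ p) with hν
  have : IsFiniteMeasure ν := isFiniteMeasure_withDensity hfin.ne
  have h1 := Besicovitch.ae_tendsto_rnDeriv ν (volume : Measure R4)
  have h2 := Measure.rnDeriv_lt_top ν (volume : Measure R4)
  have h3 : ∀ᵐ x, x ∈ Metric.ball x₀ ρ → ∃ M : ℝ, 0 ≤ M ∧ ∃ ε : ℝ, 0 < ε ∧
      ∀ r, 0 < r → r < ε → ∫⁻ w in Metric.closedBall x r, ‖g w‖ₑ ^ p ≤ ENNReal.ofReal (M * r ^ 4) := by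
    filter_upwards [h1, h2] with x hx hx2 hxb
    set D := ν.rnDeriv volume x with hD
    have hDt : D < D + 1 := ENNReal.lt_add_right hx2.ne one_ne_zero
    have h4 : ∀ᶠ r in 𝓝[>] (0 : ℝ),
        ν (Metric.closedBall x r) / volume (Metric.closedBall x r) < D + 1 :=
      hx.eventually (gt_mem_nhds hDt)
    have h5 : ∀ᶠ r in 𝓝[>] (0 : ℝ), r < ρ - dist x x₀ := by
      have h6 : (0 : ℝ) < ρ - dist x x₀ := by
        rw [Metric.mem_ball] at hxb
        linarith
      exact nhdsWithin_le_nhds (gt_mem_nhds h6)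
    obtain ⟨ε, hε, hεs⟩ := (mem_nhdsGT_iff_exists_Ioo_subset).1 (h4.and h5)
    refine ⟨(D + 1).toReal * 16, by positivity, ε, hε, fun r hr hrε => ?_⟩
    obtain ⟨h6, h7⟩ := hεs ⟨hr, hrε⟩
    have h8 : Metric.closedBall x r ⊆ K := by
      intro w hw
      rw [Metric.mem_closedBall] at hw
      rw [hK, Metric.mem_closedBall]
      have := dist_triangle w x x₀
      linarith
    have h9 : ∫⁻ w in Metric.closedBall x r, ‖g w‖ₑ ^ p = ν (Metric.closedBall x r) := by
      rw [hν, withDensity_apply _ Metric.isClosed_closedBall.measurableSet,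
        Measure.restrict_restrict Metric.isClosed_closedBall.measurableSet,
        inter_eq_left.2 h8]
    rw [h9]
    have h10 : volume (Metric.closedBall x r) = ENNReal.ofReal ((2 * r) ^ 4) := by
      rw [Real.volume_pi_closedBall _ hr.le]
      simp
    have h11 : volume (Metric.closedBall x r) ≠ 0 := by
      rw [h10]
      simp only [ne_eq, ENNReal.ofReal_eq_zero, not_le]
      positivity
    have h12 : volume (Metric.closedBall x r) ≠ ⊤ := by
      rw [h10]; exact ENNReal.ofReal_ne_top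
    have h13 : ν (Metric.closedBall x r) ≤ (D + 1) * volume (Metric.closedBall x r) := by
      have h14 := h6.le
      rwa [ENNReal.div_le_iff h11 h12] at h14
    refine h13.trans (le_of_eq ?_)
    have h15 : D + 1 ≠ ⊤ := ENNReal.add_ne_top.2 ⟨hx2.ne, ENNReal.one_ne_top⟩
    rw [h10]
    conv_lhs => rw [← ENNReal.ofReal_toReal h15]
    rw [← ENNReal.ofReal_mul ENNReal.toReal_nonneg]
    congr 1
    ring
  refine ⟨Metric.ball x₀ ρ ∩ {x | ¬ (x ∈ Ω → ∃ M : ℝ, 0 ≤ M ∧ ∃ ε : ℝ, 0 < ε ∧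
      ∀ r, 0 < r → r < ε →
        ∫⁻ w in Metric.closedBall x r, ‖g w‖ₑ ^ p ≤ ENNReal.ofReal (M * r ^ 4))}, ?_, ?_⟩
  · exact inter_mem (nhdsWithin_le_nhds (Metric.ball_mem_nhds x₀ hρ)) self_mem_nhdsWithin
  · refine measure_mono_null ?_ (ae_iff.1 h3)
    rintro x ⟨hx, hx'⟩ h
    exact hx' fun _ => h hx

theorem diff_hom {p : ℝ} (hp : 3 < p) {e : OpenPartialHomeomorph R4 R4}
    {G : R4 → Matrix (Fin 4) (Fin 4) ℝ} (hG : IsWD (ENNReal.ofReal p) e.source e G) :
    ∀ᵐ x, x ∈ e.source → HasFDerivAt e (mL (G x)) x := by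
  have hp0 : 0 < p := by linarith
  obtain ⟨C, hC, hosc⟩ := osc_le hp
  have hcont : ∀ b : Fin 4, ContinuousOn (fun y => e y b) e.source := fun b =>
    (continuous_apply b).comp_continuousOn e.continuousOn
  have h1 : ∀ b : Fin 4, ∀ᵐ x, x ∈ e.source → HasFDerivAt (fun y => e y b) (lin (G x b)) x := by
    intro b
    refine fderiv_eq_weak e.open_source (hcont b) (fun a => (hG.lp b a).exp ?_) (hG.wg b) ?_
    · rw [show (1 : ℝ≥0∞) = ENNReal.ofReal 1 by simp]
      exact ENNReal.ofReal_le_ofReal (by linarith)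
    refine stepanov e.open_source (hcont b) ?_
    have h2 : ∀ a : Fin 4, ∀ᵐ x, x ∈ e.source → ∃ M : ℝ, 0 ≤ M ∧ ∃ ε : ℝ, 0 < ε ∧
        ∀ r, 0 < r → r < ε →
          ∫⁻ w in Metric.closedBall x r, ‖G w b a‖ₑ ^ p ≤ ENNReal.ofReal (M * r ^ 4) :=
      fun a => avg_bd hp0 e.open_source (hG.lp b a)
    filter_upwards [(ae_all_iff (ι := Fin 4)).2 h2] with x hx hxs
    choose M hM ε hε hMr using fun a => hx a hxs
    obtain ⟨ρ, hρ, hρs⟩ := Metric.nhds_basis_closedBall.mem_iff.1 (e.open_source.mem_nhds hxs)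
    set A : ℝ := ∑ a, M a with hA
    have hA0 : 0 ≤ A := Finset.sum_nonneg fun a _ => hM a
    refine ⟨(C * A * 16) ^ (1 / p), ?_⟩
    have h3 : ∀ᶠ y in 𝓝 x, ∀ a, dist y x < ε a / 2 := by
      rw [eventually_all]
      intro a
      exact Metric.ball_mem_nhds x (by have := hε a; positivity)
    filter_upwards [h3, Metric.ball_mem_nhds x (half_pos hρ)] with y hy hyρ
    rw [Metric.mem_ball] at hyρ
    by_cases hxy : y = x
    · subst hxy
      simp
    set r := dist y x with hr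
    have hr0 : 0 < r := dist_pos.2 hxy
    rw [← dist_eq_norm, ← hr]
    have h4 := hosc e G hG b x r hr0
      ((Metric.closedBall_subset_closedBall (by linarith)).trans hρs) y
      (by rw [Metric.mem_closedBall]) x (Metric.mem_closedBall_self hr0.le)
    have h5 : ∑ a, ∫⁻ w in Metric.closedBall x (2 * r), ‖G w b a‖ₑ ^ p ≤
        ENNReal.ofReal (A * (2 * r) ^ 4) := by
      rw [hA, Finset.sum_mul, ENNReal.ofReal_sum_of_nonneg (fun a _ => by
        have := hM a; positivity)]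
      exact Finset.sum_le_sum fun a _ => hMr a (2 * r) (by linarith) (by have := hy a; linarith)
    have h6 : ENNReal.ofReal (|e y b - e x b| ^ p) ≤
        ENNReal.ofReal (C * r ^ (p - 4) * (A * (2 * r) ^ 4)) := by
      rw [ENNReal.ofReal_mul (by positivity)]
      exact h4.trans (mul_le_mul_right h5 _)
    have h7 : |e y b - e x b| ^ p ≤ C * r ^ (p - 4) * (A * (2 * r) ^ 4) :=
      (ENNReal.ofReal_le_ofReal_iff (by positivity)).1 h6
    have h8 : C * r ^ (p - 4) * (A * (2 * r) ^ 4) = (C * A * 16) * r ^ p := by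
      have h9 : r ^ p = r ^ (p - 4) * r ^ 4 := by
        rw [← Real.rpow_natCast r 4, ← Real.rpow_add hr0]
        congr 1
        push_cast
        ring
      rw [h9]
      ring
    rw [h8] at h7
    have h10 := Real.rpow_le_rpow (by positivity) h7 (by positivity : (0 : ℝ) ≤ 1 / p)
    rw [← Real.rpow_mul (abs_nonneg _), mul_one_div_cancel hp0.ne', Real.rpow_one,
      Real.mul_rpow (by positivity) (by positivity), ← Real.rpow_mul hr0.le,
      mul_one_div_cancel hp0.ne', Real.rpow_one] at h10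
    exact h10
  filter_upwards [(ae_all_iff (ι := Fin 4)).2 h1] with x hx hxs
  rw [hasFDerivAt_pi']
  intro b
  have hlin : (ContinuousLinearMap.proj b).comp (mL (G x)) = lin (G x b) := by
    ext v
    simp [mL, lin, Matrix.toLin'_apply, Matrix.mulVec, dotProduct]
  rw [hlin]
  exact hx b hxs

end Pool.Agent.SYC
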